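import Pool.Agent.H11.TSL.TsP
import Pool.Agent.H28.PT4.RtL

/-!
# THEOREM TS, LOG VERSION, Asl: logarithmic bounds for points over `L₀ m` give logarithmic bounds for all subvarieties over all `L ≤ L₀ m`, uniformly in `m`

`asm_LM`: `c ≤ (log (3 m ω))^C ω θ`; `asm_LS`: `c ≤ (1 + log m)^C (1 + log ω)^C ω θ`.
-/

set_option autoImplicit false
set_option linter.unusedSectionVars false

open MvPolynomial NumberField

namespace Pool.Agent.H11.TSL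

open Pool.Agent.H33.TR Pool.Agent.H72.PB Pool.Agent.H11.TH Pool.Agent.H11.TS Pool.Agent.H28.PT4

private theorem log3_nat (N D : ℕ) (hN : 1 ≤ N) (hD : 1 ≤ D) : 1 ≤ Real.log (3 * N * D) :=
  log3_ge1 N D (by exact_mod_cast hN) (by exact_mod_cast hD)

private theorem degP_one {K Ω : Type} [Field K] [Field Ω] [Algebra K Ω]
    [Algebra.IsAlgebraic K Ω] (L : IntermediateField K Ω) {k : ℕ} (γ : Fin k → Ωˣ) :
    1 ≤ degP L γ := by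
  have halg : Algebra.IsAlgebraic L Ω := Algebra.IsAlgebraic.tower_top (K := K) L
  have hfin : FiniteDimensional L (IntermediateField.adjoin L (Set.range fun i => (γ i : Ω))) :=
    IntermediateField.finiteDimensional_adjoin fun x _ => Algebra.IsIntegral.isIntegral x
  exact Module.finrank_pos

/-- smaller fields -/
theorem logB_field {K Ω : Type} [Field K] [NumberField K] [Field Ω] [CharZero Ω] [IsAlgClosed Ω]
    [Algebra K Ω] [IsGalois K Ω] {L L₀ : IntermediateField K Ω} (hL : L ≤ L₀) {Λ : Subgroup Ωˣ}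
    {k N C : ℕ} (hN : 1 ≤ N) {c : ℝ} (h : LogB L₀ Λ k N C c) : LogB L Λ k N C c := by
  intro γ hγ
  have halg : Algebra.IsAlgebraic K Ω := inferInstance
  have h1 := h γ hγ
  have h4 : degP L₀ γ ≤ degP L γ := degP_mono hL γ
  have h4R : (degP L₀ γ : ℝ) ≤ degP L γ := by exact_mod_cast h4
  have h5 : (0 : ℝ) ≤ ∏ i, absLogHeight₁ (γ i : Ω) :=
    Finset.prod_nonneg fun i _ => ht_nonneg _
  have h6 : (1 : ℝ) ≤ N := by exact_mod_cast hN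
  have h7 : (1 : ℝ) ≤ degP L₀ γ := by exact_mod_cast degP_one L₀ γ
  have h8 : Real.log (3 * N * degP L₀ γ) ≤ Real.log (3 * N * degP L γ) := by
    refine Real.log_le_log (by positivity) ?_
    gcongr
  have h9 : 0 ≤ Real.log (3 * N * degP L₀ γ) :=
    zero_le_one.trans (log3_nat N _ hN (degP_one L₀ γ))
  refine h1.trans ?_
  gcongr

theorem ts_PZL (n E : ℕ) : ∃ (C : ℕ) (κ : ℝ), 0 < κ ∧
    ∀ (K Ω : Type) [Field K] [NumberField K] [Field Ω] [CharZero Ω] [IsAlgClosed Ω] [Algebra K Ω]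
      [IsGalois K Ω] (c₁ : ℝ) (_ : 0 ≤ c₁) (Λ : Subgroup Ωˣ) (L : IntermediateField K Ω)
      (N' : ℕ) (_ : 1 ≤ N') (_ : ∀ k : ℕ, 1 ≤ k → k ≤ n → LogB L Λ k N' E c₁)
      (Γ : Subgroup (Tor Ω n)) (_ : ∀ x : Tor Ω n, (∀ l, x l ∈ Λ) → x ∈ Γ)
      (V : Set (Tor Ω n)) (_ : (idl V).IsPrime) (_ : Transv K Γ V)
      (Z : Set (Tor Ω n)) (d' : ℕ) (δ ω : ℝ) (_ : ClosedOver L Z) (_ : Z ≠ Set.univ)
      (_ : Equidim Z d') (_ : HasDeg Z d' δ) (_ : V ⊆ Z) (_ : δ ^ (1 / ((n : ℝ) - d')) ≤ ω)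
      (θ : ℝ) (_ : idl {x | x ∈ V ∧ ht x ≤ θ} ≤ idl V),
      1 ≤ ω ∧ κ * min 1 c₁ ≤ Real.log (3 * N' * ω) ^ C * ω * θ := by
  classical
  obtain ⟨C, κ, hκ, hmain⟩ := ts_PL n E
  have hB : (0 : ℝ) < (n ^ 2 + 1 : ℝ) ^ C * (2 : ℝ) ^ (n ^ 2) := by positivity
  refine ⟨C, κ / ((n ^ 2 + 1 : ℝ) ^ C * (2 : ℝ) ^ (n ^ 2)), div_pos hκ hB, ?_⟩
  intro K Ω _ _ _ _ _ _ _ c₁ hc₁ Λ L N' hN' hP Γ hΓ V hV htr Z d' δ ω hZ hZne hZd hZδ hVZ hω θ hθ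
  obtain ⟨hω1, D, F, hD1, hDω, hF0, hFD, hFZ⟩ := poly_of_omega L Z d' δ ω hZ hZne hZd hZδ hω
  refine ⟨hω1, ?_⟩
  have hFV : map (algebraMap L Ω) F ∈ idl V := by
    rw [mem_idl] at hFZ ⊢
    exact fun x hx => hFZ x (hVZ hx)
  have h1 := hmain K Ω c₁ hc₁ Λ L N' hN' hP Γ hΓ V hV htr D hD1 F hF0 hFD hFV θ hθ
  have hθ0 : 0 ≤ θ := by
    obtain ⟨x, hx⟩ : {x | x ∈ V ∧ ht x ≤ θ}.Nonempty := by
      by_contra hcon
      rw [Set.not_nonempty_iff_eq_empty] at hcon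
      rw [hcon] at hθ
      apply hV.ne_top
      rw [eq_top_iff]
      refine le_trans ?_ hθ
      intro f _
      rw [mem_idl]
      intro x hx
      exact absurd hx (Set.notMem_empty x)
    refine le_trans ?_ hx.2
    unfold ht
    exact Finset.sum_nonneg fun l _ => ht_nonneg _
  have hN1 : (1 : ℝ) ≤ N' := by exact_mod_cast hN'
  have hDR : (1 : ℝ) ≤ D := by exact_mod_cast hD1
  have hω0 : (0 : ℝ) < ω := by linarith
  have hl1 : 1 ≤ Real.log (3 * N' * ω) := log3_ge1 _ _ hN1 hω1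
  have hlD : 0 ≤ Real.log (3 * N' * D) := zero_le_one.trans (log3_ge1 _ _ hN1 hDR)
  have hlog : Real.log (3 * N' * D) ≤ (n ^ 2 + 1 : ℝ) * Real.log (3 * N' * ω) := by
    have h2 : 3 * N' * (D : ℝ) ≤ (2 : ℝ) ^ (n ^ 2) * (3 * N' * ω) := by
      calc 3 * N' * (D : ℝ) ≤ 3 * N' * ((2 : ℝ) ^ (n ^ 2) * ω) := by gcongr
        _ = _ := by ring
    have h3 : Real.log (3 * N' * D) ≤ Real.log ((2 : ℝ) ^ (n ^ 2)) + Real.log (3 * N' * ω) := by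
      refine (Real.log_le_log (by positivity) h2).trans (le_of_eq ?_)
      rw [Real.log_mul (by positivity) (by positivity)]
    have h4 : Real.log ((2 : ℝ) ^ (n ^ 2)) ≤ n ^ 2 := by
      rw [Real.log_pow]
      have h5 := Real.log_two_lt_d9
      have h6 : (0 : ℝ) ≤ ((n ^ 2 : ℕ) : ℝ) := Nat.cast_nonneg _
      push_cast at h6 ⊢
      nlinarith
    have h5 : (0 : ℝ) ≤ (n : ℝ) ^ 2 := by positivity
    nlinarith
  rw [div_mul_eq_mul_div, div_le_iff₀ hB]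
  refine h1.trans ?_
  calc Real.log (3 * N' * D) ^ C * D * θ
      ≤ ((n ^ 2 + 1 : ℝ) * Real.log (3 * N' * ω)) ^ C * ((2 : ℝ) ^ (n ^ 2) * ω) * θ := by
        gcongr
    _ = Real.log (3 * N' * ω) ^ C * ω * θ * ((n ^ 2 + 1 : ℝ) ^ C * (2 : ℝ) ^ (n ^ 2)) := by
        rw [mul_pow]
        ring

theorem asm_LM {K Ω : Type} [Field K] [NumberField K] [Field Ω] [CharZero Ω] [IsAlgClosed Ω]
    [Algebra K Ω] [IsGalois K Ω] (Λ : Subgroup Ωˣ) (L₀ : ℕ → IntermediateField K Ω)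
    (hPT : ∀ k : ℕ, 1 ≤ k → ∃ (C : ℕ) (c : ℝ), 0 < c ∧ ∀ m : ℕ, 1 ≤ m →
      LogH (L₀ m) Λ k m C c) (n : ℕ) : ∃ (C : ℕ) (c : ℝ), 0 < c ∧
    ∀ (m : ℕ) (_ : 1 ≤ m) (L : IntermediateField K Ω) (_ : L ≤ L₀ m)
      (Γ : Subgroup (Tor Ω n)) (_ : ∀ x : Tor Ω n, (∀ l, x l ∈ Λ) → x ∈ Γ)
      (V : Set (Tor Ω n)) (_ : (idl V).IsPrime) (_ : Transv K Γ V)
      (Z : Set (Tor Ω n)) (d' : ℕ) (δ ω : ℝ) (_ : ClosedOver L Z) (_ : Z ≠ Set.univ)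
      (_ : Equidim Z d') (_ : HasDeg Z d' δ) (_ : V ⊆ Z) (_ : δ ^ (1 / ((n : ℝ) - d')) ≤ ω)
      (θ : ℝ) (_ : idl {x | x ∈ V ∧ ht x ≤ θ} ≤ idl V),
      1 ≤ ω ∧ 0 ≤ θ ∧ c ≤ Real.log (3 * m * ω) ^ C * ω * θ := by
  classical
  have halg : Algebra.IsAlgebraic K Ω := inferInstance
  have hk : ∀ k : ℕ, ∃ (C : ℕ) (c : ℝ), 0 < c ∧ (1 ≤ k → ∀ m : ℕ, 1 ≤ m →
      LogB (L₀ m) Λ k m C c) := by
    intro k
    by_cases hk1 : 1 ≤ k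
    · obtain ⟨C₁, c₁, hc₁, h₁⟩ := hPT 1 le_rfl
      obtain ⟨C₂, c₂, hc₂, h₂⟩ := hPT k hk1
      obtain ⟨C₃, c₃, hc₃, h₃⟩ := root_trickL k hk1 (max C₁ C₂) (min c₁ c₂) (lt_min hc₁ hc₂)
      refine ⟨C₃, c₃, hc₃, fun _ m hm => ?_⟩
      exact h₃ K Ω (L₀ m) Λ m hm
        (logH_mono le_rfl hm (le_max_left _ _) (min_le_left _ _) (h₁ m hm))
        (logH_mono hk1 hm (le_max_right _ _) (min_le_right _ _) (h₂ m hm))
    · exact ⟨0, 1, one_pos, fun h => absurd h hk1⟩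
  choose Cf cf hcf hf using hk
  obtain ⟨C₀, hC₀⟩ : ∃ C : ℕ, ∀ k ≤ n, Cf k ≤ C :=
    ⟨(Finset.range (n + 1)).sup Cf, fun j hj => Finset.le_sup (Finset.mem_range.2 (by omega))⟩
  obtain ⟨c₀, hc₀, hc₀le⟩ : ∃ c : ℝ, 0 < c ∧ ∀ k ≤ n, c ≤ cf k := by
    obtain ⟨k₀, -, hmin⟩ := Finset.exists_min_image (Finset.range (n + 1)) cf
      ⟨0, Finset.mem_range.2 (Nat.succ_pos n)⟩
    exact ⟨cf k₀, hcf k₀, fun k hkn => hmin k (Finset.mem_range.2 (by omega))⟩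
  obtain ⟨C, κ, hκ, hmain⟩ := ts_PZL n C₀
  refine ⟨C, κ * min 1 c₀, mul_pos hκ (lt_min one_pos hc₀), ?_⟩
  intro m hm L hL Γ hΓ V hV htr Z d' δ ω hZ hZne hZd hZδ hVZ hω θ hθ
  obtain ⟨h1, h2⟩ := hmain K Ω c₀ hc₀.le Λ L m hm (fun k hk1 hkn =>
    logB_field hL hm (logB_mono hm (hC₀ k hkn) (hc₀le k hkn) (hf k hk1 m hm)))
    Γ hΓ V hV htr Z d' δ ω hZ hZne hZd hZδ hVZ hω θ hθ
  refine ⟨h1, ?_, h2⟩
  by_contra hneg
  push Not at hneg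
  have hm1 : (1 : ℝ) ≤ m := by exact_mod_cast hm
  have h3 : 1 ≤ Real.log (3 * m * ω) := log3_ge1 _ _ hm1 h1
  have h4 : 0 < κ * min 1 c₀ := mul_pos hκ (lt_min one_pos hc₀)
  have h5 : 0 < Real.log (3 * m * ω) ^ C * ω := by positivity
  nlinarith

/-- the logarithm of a product -/
theorem log_split (m ω : ℝ) (hm : 1 ≤ m) (hω : 1 ≤ ω) :
    Real.log (3 * m * ω) ≤ 2 * ((1 + Real.log m) * (1 + Real.log ω)) := by
  have h1 : 0 ≤ Real.log m := Real.log_nonneg hm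
  have h2 : 0 ≤ Real.log ω := Real.log_nonneg hω
  have h3 : Real.log 3 ≤ 2 := by
    have h4 : Real.log 3 ≤ Real.log 4 := Real.log_le_log (by norm_num) (by norm_num)
    have h5 : Real.log 4 = 2 * Real.log 2 := by
      rw [show (4 : ℝ) = 2 ^ 2 by norm_num, Real.log_pow]
      norm_num
    have h6 := Real.log_two_lt_d9
    linarith
  rw [Real.log_mul (by positivity) (by positivity), Real.log_mul (by norm_num) (by positivity)]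
  nlinarith [mul_nonneg h1 h2]

/-- `asm_LM` with separated logarithms -/
theorem asm_LS {K Ω : Type} [Field K] [NumberField K] [Field Ω] [CharZero Ω] [IsAlgClosed Ω]
    [Algebra K Ω] [IsGalois K Ω] (Λ : Subgroup Ωˣ) (L₀ : ℕ → IntermediateField K Ω)
    (hPT : ∀ k : ℕ, 1 ≤ k → ∃ (C : ℕ) (c : ℝ), 0 < c ∧ ∀ m : ℕ, 1 ≤ m →
      LogH (L₀ m) Λ k m C c) (n : ℕ) : ∃ (C : ℕ) (c : ℝ), 0 < c ∧
    ∀ (m : ℕ) (_ : 1 ≤ m) (L : IntermediateField K Ω) (_ : L ≤ L₀ m)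
      (Γ : Subgroup (Tor Ω n)) (_ : ∀ x : Tor Ω n, (∀ l, x l ∈ Λ) → x ∈ Γ)
      (V : Set (Tor Ω n)) (_ : (idl V).IsPrime) (_ : Transv K Γ V)
      (Z : Set (Tor Ω n)) (d' : ℕ) (δ ω : ℝ) (_ : ClosedOver L Z) (_ : Z ≠ Set.univ)
      (_ : Equidim Z d') (_ : HasDeg Z d' δ) (_ : V ⊆ Z) (_ : δ ^ (1 / ((n : ℝ) - d')) ≤ ω)
      (θ : ℝ) (_ : idl {x | x ∈ V ∧ ht x ≤ θ} ≤ idl V),
      1 ≤ ω ∧ c ≤ (1 + Real.log m) ^ C * ((1 + Real.log ω) ^ C * ω * θ) := by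
  obtain ⟨C, c, hc, h⟩ := asm_LM Λ L₀ hPT n
  refine ⟨C, c / 2 ^ C, by positivity, ?_⟩
  intro m hm L hL Γ hΓ V hV htr Z d' δ ω hZ hZne hZd hZδ hVZ hω θ hθ
  obtain ⟨h1, h2, h3⟩ := h m hm L hL Γ hΓ V hV htr Z d' δ ω hZ hZne hZd hZδ hVZ hω θ hθ
  refine ⟨h1, ?_⟩
  have hm1 : (1 : ℝ) ≤ m := by exact_mod_cast hm
  have h4 := log_split m ω hm1 h1
  have h5 : 0 ≤ Real.log (3 * m * ω) := zero_le_one.trans (log3_ge1 _ _ hm1 h1)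
  rw [div_le_iff₀ (by positivity)]
  calc c ≤ Real.log (3 * m * ω) ^ C * ω * θ := h3
    _ ≤ (2 * ((1 + Real.log m) * (1 + Real.log ω))) ^ C * ω * θ := by gcongr
    _ = (1 + Real.log m) ^ C * ((1 + Real.log ω) ^ C * ω * θ) * 2 ^ C := by
        rw [mul_pow, mul_pow]
        ring

end Pool.Agent.H11.TSL
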