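import Mathlib

/-!
# THEOREM TS, LOG VERSION, Par: the parameters

`τ = tl n a = n (38 n^2 + a + 2) + 3`, the primes are in `(P₀, P₀^3]`, `Qt = (P₀^3)^n (P₀^3 τ)^(4n)` the ratio of a range, `Mt = Qt^(2n) D` the end of the last range.
The constant `C` depends on `n` only: `(C (a+1))^C ≤ P₀`, `D ≤ P₀^a`.
-/

set_option autoImplicit false

namespace Pool.Agent.H11.TSL

/-- the parameter `τ` -/
def tl (n a : ℕ) : ℕ := n * (38 * n ^ 2 + a + 2) + 3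

/-- the ratio of a range -/
def Qt (n τ P₀ : ℕ) : ℕ := (P₀ ^ 3) ^ n * (P₀ ^ 3 * τ) ^ (4 * n)

/-- the end of the last range -/
def Mt (n τ P₀ D : ℕ) : ℕ := Qt n τ P₀ ^ (2 * n) * D

theorem qt_le (n τ P₀ : ℕ) (hτ : τ ≤ P₀) : Qt n τ P₀ ≤ P₀ ^ (19 * n) := by
  unfold Qt
  calc (P₀ ^ 3) ^ n * (P₀ ^ 3 * τ) ^ (4 * n) ≤ (P₀ ^ 3) ^ n * (P₀ ^ 3 * P₀) ^ (4 * n) :=
        Nat.mul_le_mul_left _ (Nat.pow_le_pow_left (Nat.mul_le_mul_left _ hτ) _)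
    _ = P₀ ^ (19 * n) := by
        rw [← pow_succ, ← pow_mul, ← pow_mul, ← pow_add]
        congr 1
        ring

theorem mt_le (n τ P₀ D : ℕ) (hτ : τ ≤ P₀) : Mt n τ P₀ D ≤ P₀ ^ (38 * n ^ 2) * D := by
  unfold Mt
  refine Nat.mul_le_mul_right _ ?_
  calc Qt n τ P₀ ^ (2 * n) ≤ (P₀ ^ (19 * n)) ^ (2 * n) := Nat.pow_le_pow_left (qt_le n τ P₀ hτ) _
    _ = P₀ ^ (38 * n ^ 2) := by
        rw [← pow_mul]
        congr 1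
        ring

theorem parL (n : ℕ) : ∃ C : ℕ, 256 ≤ C ∧ ∀ P₀ D a : ℕ, (C * (a + 1)) ^ C ≤ P₀ → 1 ≤ D →
    D ≤ P₀ ^ a →
    256 ≤ P₀ ∧ 2 * tl n a ≤ P₀ ∧
    (2 * (2 * tl n a) ^ (n + 1)) ^ 4 * (72 * n) ^ n < P₀ ∧
    (2 * tl n a * Mt n (tl n a) P₀ D + 1) ^ n ≤ P₀ ^ (tl n a - 1) ∧
    n.factorial * Mt n (tl n a) P₀ D ^ n < P₀ ^ tl n a ∧
    Mt n (tl n a) P₀ D ≤ P₀ ^ (38 * n ^ 2) * D := by
  obtain ⟨A, hA⟩ : ∃ A : ℕ, A = n * (38 * n ^ 2 + 3) + 3 := ⟨_, rfl⟩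
  obtain ⟨C, hC⟩ : ∃ C : ℕ, C = 256 + 2 * A + 72 * n + (5 * n + 9) + n.factorial := ⟨_, rfl⟩
  refine ⟨C, by omega, fun P₀ D a hP hD hDa => ?_⟩
  obtain ⟨x, hx⟩ : ∃ x : ℕ, x = C * (a + 1) := ⟨_, rfl⟩
  rw [← hx] at hP
  have hCx : C ≤ x := by
    rw [hx]
    exact Nat.le_mul_of_pos_right _ (Nat.succ_pos a)
  have hx1 : 1 ≤ x := by omega
  have hxP : x ≤ P₀ := (Nat.le_self_pow (by omega) x).trans hP
  obtain ⟨τ, hτ⟩ : ∃ τ : ℕ, τ = tl n a := ⟨_, rfl⟩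
  have hτA : τ ≤ A * (a + 1) := by
    rw [hτ, hA]
    unfold tl
    nlinarith [Nat.zero_le (n * n ^ 2 * a), Nat.zero_le (n * a), Nat.zero_le a]
  have hτx : 2 * τ ≤ x := by
    rw [hx, hC]
    nlinarith [Nat.zero_le (n * a), Nat.zero_le a, Nat.zero_le (n.factorial * (a + 1))]
  rw [← hτ]
  have h2τP : 2 * τ ≤ P₀ := hτx.trans hxP
  have hτP : τ ≤ P₀ := by omega
  have hP2 : 2 ≤ P₀ := by omega
  have hM := mt_le n τ P₀ D hτP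
  have hfac : n.factorial ≤ P₀ := by omega
  have hτ3 : τ = n * (38 * n ^ 2 + a + 2) + 3 := by
    rw [hτ]
    rfl
  refine ⟨by omega, h2τP, ?_, ?_, ?_, hM⟩
  · have h1 : (2 * (2 * τ) ^ (n + 1)) ^ 4 * (72 * n) ^ n ≤ (x * x ^ (n + 1)) ^ 4 * x ^ n :=
      Nat.mul_le_mul (Nat.pow_le_pow_left (Nat.mul_le_mul (by omega)
        (Nat.pow_le_pow_left hτx _)) _) (Nat.pow_le_pow_left (by omega) _)
    have h2 : (x * x ^ (n + 1)) ^ 4 * x ^ n = x ^ (5 * n + 8) := by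
      rw [← pow_succ', ← pow_mul, ← pow_add]
      congr 1
      ring
    rw [h2] at h1
    refine lt_of_le_of_lt h1 (lt_of_lt_of_le ?_ hP)
    exact Nat.pow_lt_pow_right (by omega) (by omega)
  · have h1 : 2 * τ * Mt n τ P₀ D + 1 ≤ P₀ ^ (38 * n ^ 2 + a + 2) := by
      have h3 : 1 ≤ P₀ ^ (38 * n ^ 2 + 1) * P₀ ^ a := Nat.mul_pos (Nat.pow_pos (by omega))
        (Nat.pow_pos (by omega))
      calc 2 * τ * Mt n τ P₀ D + 1 ≤ P₀ * (P₀ ^ (38 * n ^ 2) * P₀ ^ a) + 1 :=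
            Nat.add_le_add_right (Nat.mul_le_mul h2τP (hM.trans (Nat.mul_le_mul_left _ hDa))) _
        _ = P₀ ^ (38 * n ^ 2 + 1) * P₀ ^ a + 1 := by ring
        _ ≤ P₀ ^ (38 * n ^ 2 + 1) * P₀ ^ a + P₀ ^ (38 * n ^ 2 + 1) * P₀ ^ a :=
            Nat.add_le_add_left h3 _
        _ = 2 * (P₀ ^ (38 * n ^ 2 + 1) * P₀ ^ a) := by ring
        _ ≤ P₀ * (P₀ ^ (38 * n ^ 2 + 1) * P₀ ^ a) := Nat.mul_le_mul_right _ hP2
        _ = P₀ ^ (38 * n ^ 2 + a + 2) := by ring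
    calc (2 * τ * Mt n τ P₀ D + 1) ^ n ≤ (P₀ ^ (38 * n ^ 2 + a + 2)) ^ n :=
          Nat.pow_le_pow_left h1 _
      _ = P₀ ^ (n * (38 * n ^ 2 + a + 2)) := by rw [← pow_mul, mul_comm]
      _ ≤ P₀ ^ (τ - 1) := Nat.pow_le_pow_right (by omega) (by omega)
  · have h1 : Mt n τ P₀ D ^ n ≤ P₀ ^ (n * (38 * n ^ 2 + a + 2)) := by
      calc Mt n τ P₀ D ^ n ≤ (P₀ ^ (38 * n ^ 2) * P₀ ^ a) ^ n :=
            Nat.pow_le_pow_left (hM.trans (Nat.mul_le_mul_left _ hDa)) _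
        _ = P₀ ^ (n * (38 * n ^ 2 + a)) := by
            rw [← pow_add, ← pow_mul, mul_comm]
        _ ≤ _ := Nat.pow_le_pow_right (by omega) (Nat.mul_le_mul_left _ (by omega))
    calc n.factorial * Mt n τ P₀ D ^ n ≤ P₀ * P₀ ^ (n * (38 * n ^ 2 + a + 2)) :=
          Nat.mul_le_mul hfac h1
      _ = P₀ ^ (n * (38 * n ^ 2 + a + 2) + 1) := by ring
      _ < P₀ ^ τ := Nat.pow_lt_pow_right (by omega) (by omega)

theorem par_logL (n τ M P₀ P₁ p : ℕ) (θ : ℝ) (hτ : 2 ≤ τ) (hθ : 0 ≤ θ) (hP : 3 ≤ P₀) (hp : P₀ < p)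
    (hp' : p ≤ P₁) (h1 : (2 * τ * M + 1) ^ n ≤ P₀ ^ (τ - 1))
    (h2 : ((P₁ * (2 * τ * M) : ℕ) : ℝ) * θ ≤ 1) :
    2 * (Real.log (((2 * τ * M + 1) ^ n : ℕ) : ℝ) + ((p * (2 * τ * M) : ℕ) : ℝ) * θ) <
      (2 * τ : ℕ) * Real.log p := by
  have hP0 : (0 : ℝ) < P₀ := by exact_mod_cast (by omega : 0 < P₀)
  have hlog1 : 1 ≤ Real.log P₀ := by
    rw [Real.le_log_iff_exp_le hP0]
    have h3 : (3 : ℝ) ≤ P₀ := by exact_mod_cast hP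
    have h4 := Real.exp_one_lt_d9
    linarith
  have hlogp : Real.log P₀ < Real.log p := Real.log_lt_log hP0 (by exact_mod_cast hp)
  have hA : Real.log (((2 * τ * M + 1) ^ n : ℕ) : ℝ) ≤ ((τ : ℝ) - 1) * Real.log P₀ := by
    have h3 : (((2 * τ * M + 1) ^ n : ℕ) : ℝ) ≤ (P₀ : ℝ) ^ (τ - 1) := by exact_mod_cast h1
    have h4 : (0 : ℝ) < (((2 * τ * M + 1) ^ n : ℕ) : ℝ) := by
      exact_mod_cast Nat.pow_pos (Nat.succ_pos _)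
    refine (Real.log_le_log h4 h3).trans (le_of_eq ?_)
    rw [Real.log_pow, Nat.cast_sub (by omega), Nat.cast_one]
  have hB : ((p * (2 * τ * M) : ℕ) : ℝ) * θ ≤ 1 := by
    refine le_trans (mul_le_mul_of_nonneg_right ?_ hθ) h2
    exact_mod_cast Nat.mul_le_mul_right _ hp'
  have hta' : (2 : ℝ) ≤ (τ : ℝ) := by exact_mod_cast hτ
  have h5 : (τ : ℝ) * Real.log P₀ < (τ : ℝ) * Real.log p :=
    mul_lt_mul_of_pos_left hlogp (by linarith)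
  have h6 : ((2 * τ : ℕ) : ℝ) = 2 * (τ : ℝ) := by
    rw [Nat.cast_mul, Nat.cast_ofNat]
  rw [h6]
  nlinarith [hA, hB, hlog1, h5]

end Pool.Agent.H11.TSL
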