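import Pool.Agent.H11.TS.Pdt
import Pool.Agent.H11.TS.Pgn
import Pool.Agent.H11.TSL.Par
import Pool.Agent.H33.TH2.Chb

/-!
# THEOREM TS, LOG VERSION, Cm1: the range and the lattice (general parameters)

As `H11/TS/Cm1.lean`, with the primes in `(P₀, P₀^3]` from `many` (Chebyshev).
-/

set_option autoImplicit false

namespace Pool.Agent.H11.TSL

open Pool.Agent.H11.TS

/-- the primes -/
theorem primesL (P₀ τ : ℕ) (hP : 256 ≤ P₀) (hτ : 1 ≤ τ) (h2 : 2 * τ ≤ P₀) :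
    ∃ q : Fin (2 * τ) → ℕ, Function.Injective q ∧
      ∀ i, (q i).Prime ∧ P₀ < q i ∧ q i ≤ P₀ ^ 3 := by
  obtain ⟨s, hs, hp⟩ := Pool.Agent.H33.TH2.many P₀ (2 * τ) (by omega)
  let f := s.orderEmbOfFin hs
  refine ⟨fun i => f i, f.injective, fun i => ?_⟩
  obtain ⟨h1, h3, h4⟩ := hp (f i) (s.orderEmbOfFin_mem hs i)
  refine ⟨h1, h3, h4.trans ?_⟩
  calc 64 * (P₀ + 2 * τ) ^ 2 ≤ 64 * (2 * P₀) ^ 2 :=
        Nat.mul_le_mul_left _ (Nat.pow_le_pow_left (by omega) 2)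
    _ = 256 * P₀ ^ 2 := by ring
    _ ≤ P₀ * P₀ ^ 2 := Nat.mul_le_mul_right _ hP
    _ = P₀ ^ 3 := by ring

/-- the families of subspaces -/
private theorem cm1_fam {L F : Type} [Field L] [Field F] [Algebra L F] {n : ℕ} (g : Fin n → F)
    (P₀ P₁ τ M : ℕ) (hS : ∀ p, p.Prime → P₀ < p → p ≤ P₁ → PData L g p τ M) :
    ∃ SS : (p : ℕ) → ℕ → Submodule (ZMod p) (Fin n → ZMod p),
      ∀ p, p.Prime → P₀ < p → p ≤ P₁ → Antitone (SS p) ∧ (∀ N, Gr L g N (lt (SS p N))) ∧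
        ∀ N₀ N : ℕ, p ^ n * N₀ ≤ N → (p * τ) ^ 4 * N ≤ M →
          hd L g (bx n ((p * τ) ^ 4 * N)) ≤
            p * (2 * (2 * τ) ^ (n + 1) * Nat.card (SS p N₀)) ^ 4 * hd L g (bx n N) := by
  have h : ∀ p : ℕ, ∃ S : ℕ → Submodule (ZMod p) (Fin n → ZMod p),
      p.Prime → P₀ < p → p ≤ P₁ → Antitone S ∧ (∀ N, Gr L g N (lt (S N))) ∧
        ∀ N₀ N : ℕ, p ^ n * N₀ ≤ N → (p * τ) ^ 4 * N ≤ M →
          hd L g (bx n ((p * τ) ^ 4 * N)) ≤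
            p * (2 * (2 * τ) ^ (n + 1) * Nat.card (S N₀)) ^ 4 * hd L g (bx n N) := by
    intro p
    by_cases hc : p.Prime ∧ P₀ < p ∧ p ≤ P₁
    · obtain ⟨S, h1⟩ := hS p hc.1 hc.2.1 hc.2.2
      exact ⟨S, fun _ _ _ => h1⟩
    · exact ⟨fun _ => ⊥, fun h1 h2 h3 => absurd ⟨h1, h2, h3⟩ hc⟩
  choose SS hSS using h
  exact ⟨SS, hSS⟩

private theorem cm1_rank {p n : ℕ} (hp : p.Prime) (S : ℕ → Submodule (ZMod p) (Fin n → ZMod p))
    (hS : Antitone S) : (Antitone fun N => Module.finrank (ZMod p) (S N)) ∧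
    (∀ N, Module.finrank (ZMod p) (S N) ≤ n) ∧
    ∀ N N', N ≤ N' → Module.finrank (ZMod p) (S N) = Module.finrank (ZMod p) (S N') → S N' = S N := by
  have : Fact p.Prime := ⟨hp⟩
  refine ⟨fun N N' h => Submodule.finrank_mono (hS h), fun N => ?_, fun N N' h he => ?_⟩
  · refine (Submodule.finrank_le (S N)).trans (le_of_eq ?_)
    rw [Module.finrank_fin_fun]
  · exact Submodule.eq_of_le_of_finrank_eq (hS h) he.symm

private theorem cm1_ext {L F : Type} [Field L] [Field F] [Algebra L F] {n : ℕ} (g : Fin n → F)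
    (N N' : ℕ) (h : N ≤ N') (b : (Fin n → ℤ) → L)
    (hb : ∑ e ∈ bx n N, algebraMap L F (b e) * mz g e = 0) (hb0 : ∃ e ∈ bx n N, b e ≠ 0) :
    ∃ b' : (Fin n → ℤ) → L, ∑ e ∈ bx n N', algebraMap L F (b' e) * mz g e = 0 ∧
      ∃ e ∈ bx n N', b' e ≠ 0 := by
  classical
  have hsub : bx n N ⊆ bx n N' := by
    intro e he
    rw [mem_bx] at he ⊢
    intro i
    have h1 := he i
    have h2 : (N : ℤ) ≤ N' := by exact_mod_cast h
    exact ⟨h1.1, h1.2.trans h2⟩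
  refine ⟨fun e => if e ∈ bx n N then b e else 0, ?_, ?_⟩
  · rw [← Finset.sum_subset hsub]
    · rw [← hb]
      refine Finset.sum_congr rfl fun e he => ?_
      beta_reduce
      rw [if_pos he]
    · intro e _ he
      beta_reduce
      rw [if_neg he, map_zero, zero_mul]
  · obtain ⟨e, he, hbe⟩ := hb0
    refine ⟨e, hsub he, ?_⟩
    beta_reduce
    rw [if_pos he]
    exact hbe

theorem cm1L {L F : Type} [Field L] [Field F] [Algebra L F] (n τ P₀ P₁ Q D : ℕ) (hn : 1 ≤ n)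
    (hQ1 : 1 ≤ Q) (hD : 1 ≤ D) (q : Fin (2 * τ) → ℕ) (hqi : Function.Injective q)
    (hqb : ∀ i, (q i).Prime ∧ P₀ < q i ∧ q i ≤ P₁) (g : Fin n → F)
    (hg : ∀ i, g i ≠ 0) (b : (Fin n → ℤ) → L)
    (hb : ∑ e ∈ bx n D, algebraMap L F (b e) * mz g e = 0) (hb0 : ∃ e ∈ bx n D, b e ≠ 0)
    (hS : ∀ p, p.Prime → P₀ < p → p ≤ P₁ → PData L g p τ (Q ^ (2 * n) * D)) :
    ∃ (N₀ : ℕ) (Λ : AddSubgroup (Fin n → ℤ)) (G : Finset ℕ)
      (S : (p : ℕ) → Submodule (ZMod p) (Fin n → ZMod p)),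
      1 ≤ N₀ ∧ Q * N₀ ≤ Q ^ (2 * n) * D ∧ τ ≤ G.card ∧
      (∀ p ∈ G, p.Prime ∧ P₀ < p ∧ p ≤ P₁) ∧ (∀ p ∈ G, Λ ≤ lt (S p)) ∧
      (∀ p ∈ G, ∀ N : ℕ, p ^ n * N₀ ≤ N → (p * τ) ^ 4 * N ≤ Q ^ (2 * n) * D →
        hd L g (bx n ((p * τ) ^ 4 * N)) ≤
          p * (2 * (2 * τ) ^ (n + 1) * Nat.card (S p)) ^ 4 * hd L g (bx n N)) ∧
      Gr L g (Q * N₀) Λ ∧ ∃ e ∈ lb Λ N₀, e ≠ 0 := by
  classical
  obtain ⟨SS, hSS⟩ := cm1_fam g P₀ P₁ τ (Q ^ (2 * n) * D) hS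
  have hmon : Monotone fun j : ℕ => Q ^ j * D := fun i j h =>
    Nat.mul_le_mul_right D (Nat.pow_le_pow_right hQ1 h)
  have hr : ∀ i : Fin (2 * τ), _ := fun i =>
    cm1_rank (hqb i).1 (SS (q i)) (hSS (q i) (hqb i).1 (hqb i).2.1 (hqb i).2.2).1
  obtain ⟨j, hj, hcard⟩ := pigeon_ranges (2 * τ) n hn
    (fun i j => Module.finrank (ZMod (q i)) (SS (q i) (Q ^ j * D)))
    (fun i => (hr i).1.comp_monotone hmon) (fun i => (hr i).2.1 _)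
  obtain ⟨I, hI⟩ : ∃ I : Finset (Fin (2 * τ)), I = Finset.univ.filter fun i : Fin (2 * τ) =>
      Module.finrank (ZMod (q i)) (SS (q i) (Q ^ j * D)) =
        Module.finrank (ZMod (q i)) (SS (q i) (Q ^ (j + 1) * D)) := ⟨_, rfl⟩
  rw [← hI] at hcard
  obtain ⟨G, hG⟩ : ∃ G : Finset ℕ, G = I.image fun i : Fin (2 * τ) => q i := ⟨_, rfl⟩
  have hGc : τ ≤ G.card := by
    have h1 : (I.image fun i : Fin (2 * τ) => q i).card = I.card :=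
      Finset.card_image_of_injective I hqi
    rw [hG, h1]
    omega
  have hN : Q * (Q ^ j * D) = Q ^ (j + 1) * D := by ring
  have hGp : ∀ p ∈ G, (p.Prime ∧ P₀ < p ∧ p ≤ P₁) ∧ SS p (Q * (Q ^ j * D)) = SS p (Q ^ j * D) := by
    intro p hp
    rw [hG, Finset.mem_image] at hp
    obtain ⟨i, hi, rfl⟩ := hp
    rw [hI, Finset.mem_filter] at hi
    refine ⟨hqb i, ?_⟩
    rw [hN]
    exact (hr i).2.2 _ _ (hmon (Nat.le_succ j)) hi.2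
  have hN1 : 1 ≤ Q ^ j * D := Nat.mul_pos (Nat.pow_pos hQ1) hD
  have hDN : D ≤ Q ^ j * D := Nat.le_mul_of_pos_left D (Nat.pow_pos hQ1)
  have hgr : Gr L g (Q * (Q ^ j * D)) (⨅ p ∈ G, lt (SS p (Q ^ j * D))) := by
    refine gr_finset g _ G (fun p => lt (SS p (Q ^ j * D))) fun p hp => ?_
    obtain ⟨h1, h2⟩ := hGp p hp
    have h3 := (hSS p h1.1 h1.2.1 h1.2.2).2.1 (Q * (Q ^ j * D))
    rw [h2] at h3
    exact h3
  refine ⟨Q ^ j * D, ⨅ p ∈ G, lt (SS p (Q ^ j * D)), G, fun p => SS p (Q ^ j * D), hN1, ?_, hGc,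
    fun p hp => (hGp p hp).1, fun p hp => iInf₂_le p hp, fun p hp N h1 h2 => ?_, hgr, ?_⟩
  · rw [hN]
    exact hmon (show j + 1 ≤ 2 * n by omega)
  · obtain ⟨h3, -⟩ := hGp p hp
    exact (hSS p h3.1 h3.2.1 h3.2.2).2.2 _ N h1 h2
  · obtain ⟨b', hb', hb0'⟩ := cm1_ext g D (Q ^ j * D) hDN b hb hb0
    exact gr_meet g hg (Q ^ j * D) _
      (gr_mono g (Nat.le_mul_of_pos_left _ hQ1) _ hgr) b' hb' hb0'

end Pool.Agent.H11.TSL
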