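import Pool.Agent.H11.TS.Lat
import Pool.Agent.H11.TS.Mnr
import Pool.Agent.H11.TS.Pgn
import Pool.Agent.H11.TSL.Par

/-!
# THEOREM TS, LOG VERSION, Cm2: the subrange and the good prime (general parameters)

As `H11/TS/Cm2.lean`.
-/

set_option autoImplicit false

namespace Pool.Agent.H11.TSL

open Pool.Agent.H11.TS

private theorem cm2_indep {n : ℕ} (Λ : AddSubgroup (Fin n → ℤ)) (N k : ℕ) (hk : rk Λ N = k) :
    ∃ e : Fin k → Fin n → ℤ, (∀ i, e i ∈ lb Λ N) ∧ LinearIndependent ℚ (fun i => rv (e i)) := by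
  obtain ⟨f, hf1, -, hf2⟩ := Submodule.exists_fun_fin_finrank_span_eq ℚ (rv '' (lb Λ N : Set (Fin n → ℤ)))
  have hk' : Module.finrank ℚ (Submodule.span ℚ (rv '' (lb Λ N : Set (Fin n → ℤ)))) = k := hk
  subst hk'
  choose g hg1 hg2 using hf1
  refine ⟨g, fun i => Finset.mem_coe.1 (hg1 i), ?_⟩
  have h1 : (fun i => rv (g i)) = f := funext hg2
  rw [h1]
  exact hf2

theorem cm2L (n t P₀ P N₀ : ℕ) (hn : 1 ≤ n) (ht1 : 1 ≤ t) (hP₀ : 1 ≤ P₀) (hP1 : 1 ≤ P) (hN₀ : 1 ≤ N₀)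
    (Λ : AddSubgroup (Fin n → ℤ)) (G : Finset ℕ)
    (S : (p : ℕ) → Submodule (ZMod p) (Fin n → ZMod p)) (hG1 : t ≤ G.card)
    (hG : ∀ p ∈ G, p.Prime ∧ P₀ < p ∧ p ≤ P) (hΛ : ∀ p ∈ G, Λ ≤ lt (S p))
    (hne : ∃ e ∈ lb Λ N₀, e ≠ 0)
    (hnum : n.factorial * (P ^ n * (P * t) ^ (4 * n) * N₀) ^ n < P₀ ^ t) :
    ∃ p ∈ G, ∃ N₂ k : ℕ, p ^ n * N₀ ≤ N₂ ∧ 1 ≤ N₂ ∧
      (p * t) ^ 4 * N₂ ≤ P ^ n * (P * t) ^ (4 * n) * N₀ ∧
      1 ≤ k ∧ k ≤ n ∧ rk Λ N₂ = k ∧ rk Λ ((p * t) ^ 4 * N₂) = k ∧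
      Nat.card (S p) ≤ p ^ (n - k) := by
  have hr1 : 1 ≤ P * t := Nat.mul_pos hP1 ht1
  obtain ⟨N, hN⟩ : ∃ N : ℕ → ℕ, N = fun i => P ^ n * (P * t) ^ (4 * i) * N₀ := ⟨_, rfl⟩
  have hNi : ∀ i, N i = P ^ n * (P * t) ^ (4 * i) * N₀ := fun i => by rw [hN]
  have hNmono : Monotone N := by
    intro i j hij
    rw [hNi, hNi]
    exact Nat.mul_le_mul_right _ (Nat.mul_le_mul_left _ (Nat.pow_le_pow_right hr1 (by omega)))
  have hN0 : N₀ ≤ N 0 := by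
    rw [hNi, Nat.mul_zero, pow_zero, mul_one]
    exact Nat.le_mul_of_pos_left _ (Nat.pow_pos hP1)
  obtain ⟨i, hin, hfi⟩ := pigeon_rank n (fun i => rk Λ (N i)) (fun i j hij => rk_mono Λ (hNmono hij))
    (le_trans (rk_pos Λ N₀ hne) (rk_mono Λ hN0)) (rk_le Λ _)
  change rk Λ (N i) = rk Λ (N (i + 1)) at hfi
  obtain ⟨k, hk⟩ : ∃ k : ℕ, rk Λ (N i) = k := ⟨_, rfl⟩
  have hk1 : 1 ≤ k := by
    rw [← hk]
    exact le_trans (rk_pos Λ N₀ hne) (rk_mono Λ (le_trans hN0 (hNmono (Nat.zero_le i))))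
  have hkn : k ≤ n := by rw [← hk]; exact rk_le Λ _
  have hN2 : 1 ≤ N i := le_trans hN₀ (le_trans hN0 (hNmono (Nat.zero_le i)))
  have hstep : (P * t) ^ 4 * N i = N (i + 1) := by
    rw [hNi, hNi, show 4 * (i + 1) = 4 * i + 4 by ring, pow_add]
    ring
  have hlast : N (i + 1) ≤ P ^ n * (P * t) ^ (4 * n) * N₀ := by
    rw [← hNi]
    exact hNmono (by omega)
  have hNi' : N i ≤ P ^ n * (P * t) ^ (4 * n) * N₀ := le_trans (hNmono (Nat.le_succ i)) hlast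
  obtain ⟨e, he1, he2⟩ := cm2_indep Λ (N i) k hk
  obtain ⟨c, hc⟩ := minor_exists e he2
  have hle : |Matrix.det (Matrix.of fun i j => e i (c j))| ≤ (k.factorial * N i ^ k : ℕ) := by
    refine minor_le _ _ ?_
    intro i' j'
    exact ((mem_lb Λ (N i) (e i')).1 (he1 i')).1 (c j')
  have hlt : k.factorial * N i ^ k < P₀ ^ G.card := by
    obtain ⟨Q, hQ'⟩ : ∃ Q : ℕ, Q = P ^ n * (P * t) ^ (4 * n) * N₀ := ⟨_, rfl⟩
    rw [← hQ'] at hnum hNi'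
    have hQ1 : 1 ≤ Q := le_trans hN2 hNi'
    calc k.factorial * N i ^ k ≤ n.factorial * Q ^ n :=
          Nat.mul_le_mul (Nat.factorial_le hkn)
            (le_trans (Nat.pow_le_pow_left hNi' k) (Nat.pow_le_pow_right hQ1 hkn))
      _ < P₀ ^ t := hnum
      _ ≤ P₀ ^ G.card := Nat.pow_le_pow_right hP₀ hG1
  obtain ⟨p, hpG, hpd⟩ := good_prime G P₀ (fun p hp => ⟨(hG p hp).1, (hG p hp).2.1.le⟩)
    (Matrix.det (Matrix.of fun i j => e i (c j))) hc (lt_of_le_of_lt hle (by exact_mod_cast hlt))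
  obtain ⟨hpp, -, hpP⟩ := hG p hpG
  haveI : Fact p.Prime := ⟨hpp⟩
  have hp1 : 1 ≤ p := hpp.one_lt.le
  have hs1 : (p * t) ^ 4 * N i ≤ N (i + 1) := by
    rw [← hstep]
    exact Nat.mul_le_mul_right _ (Nat.pow_le_pow_left (Nat.mul_le_mul_right _ hpP) 4)
  have hs0 : N i ≤ (p * t) ^ 4 * N i :=
    Nat.le_mul_of_pos_left _ (Nat.pow_pos (Nat.mul_pos hp1 ht1))
  refine ⟨p, hpG, N i, k, ?_, hN2, le_trans hs1 hlast, hk1, hkn, hk, ?_, ?_⟩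
  · rw [hNi]
    refine Nat.mul_le_mul_right _ ?_
    calc p ^ n ≤ P ^ n := Nat.pow_le_pow_left hpP n
      _ ≤ P ^ n * (P * t) ^ (4 * i) := Nat.le_mul_of_pos_right _ (Nat.pow_pos hr1)
  · have h1 := rk_mono Λ hs0
    have h2 := rk_mono Λ hs1
    rw [← hfi, hk] at h2
    rw [hk] at h1
    omega
  · exact stab_card (S p) e (fun j => hΛ p hpG ((mem_lb Λ (N i) (e j)).1 (he1 j)).2) c hpd

end Pool.Agent.H11.TSL
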