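import Pool.Agent.H11.TSL.Cm1
import Pool.Agent.H11.TSL.Cm2
import Pool.Agent.H11.TS.Cm3
import Pool.Agent.H11.TS.Cm4
import Pool.Agent.H11.TS.Mna

/-!
# THEOREM TS, LOG VERSION, Cmb: the combinatorial core

As `H11/TS/Cmb.lean`, with explicit hypotheses on the parameters; the constant `3 (4n)^(n^2)` depends on `n` only.
-/

set_option autoImplicit false

namespace Pool.Agent.H11.TSL

open Pool.Agent.H11.TS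

theorem comb_coreL (n τ P₀ D : ℕ) (hn : 1 ≤ n) (hτ : 2 ≤ τ) (hP : 256 ≤ P₀) (h2τ : 2 * τ ≤ P₀)
    (hC : (2 * (2 * τ) ^ (n + 1)) ^ 4 * (72 * n) ^ n < P₀) (hD : 1 ≤ D)
    (hnum : n.factorial * Mt n τ P₀ D ^ n < P₀ ^ τ)
    (L F : Type) [Field L] [CharZero L] [Field F] [Algebra L F] (g : Fin n → F)
    (hg : ∀ i, g i ≠ 0)
    (b : (Fin n → ℤ) → L) (hb : ∑ e ∈ bx n D, algebraMap L F (b e) * mz g e = 0)
    (hb0 : ∃ e ∈ bx n D, b e ≠ 0)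
    (hS : ∀ p, p.Prime → P₀ < p → p ≤ P₀ ^ 3 → PData L g p τ (Mt n τ P₀ D)) :
    ∃ (k N : ℕ) (e : Fin k → Fin n → ℤ) (μ : Fin k → ℕ) (H : IntermediateField L F),
      1 ≤ k ∧ N ≤ Mt n τ P₀ D ∧ LinearIndependent ℚ (fun i => rv (e i)) ∧
      (∀ i j, |e i j| ≤ μ i) ∧ (∀ i, 1 ≤ μ i ∧ μ i ≤ N) ∧ (∀ i, mz g (e i) ∈ H) ∧
      FiniteDimensional L H ∧ Module.finrank L H * ∏ i, μ i ≤ 3 * (4 * n) ^ (n ^ 2) * N ^ k := by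
  have hInf : Infinite L := inferInstance
  obtain ⟨q, hqi, hqb⟩ := primesL P₀ τ hP (by omega) h2τ
  have hP1 : 1 ≤ P₀ ^ 3 := Nat.pow_pos (by omega)
  have hQ1 : 1 ≤ Qt n τ P₀ := by
    unfold Qt
    exact Nat.mul_pos (Nat.pow_pos hP1) (Nat.pow_pos (Nat.mul_pos hP1 (by omega)))
  obtain ⟨N₀, Λ, G, S, hN₀, hQM, hGc, hG, hΛ, hgr, hGr, hne⟩ :=
    cm1L n τ P₀ (P₀ ^ 3) (Qt n τ P₀) D hn hQ1 hD q hqi hqb g hg b hb hb0 hS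
  have hQM' : Qt n τ P₀ * N₀ ≤ Mt n τ P₀ D := hQM
  have hnum' : n.factorial * ((P₀ ^ 3) ^ n * (P₀ ^ 3 * τ) ^ (4 * n) * N₀) ^ n < P₀ ^ τ :=
    lt_of_le_of_lt (Nat.mul_le_mul_left _ (Nat.pow_le_pow_left hQM' n)) hnum
  obtain ⟨p, hpG, N₂, k, h1, h2, h3, h4, h5, h6, h7, h8⟩ :=
    cm2L n τ P₀ (P₀ ^ 3) N₀ hn (by omega) (by omega) hP1 hN₀ Λ G S hGc hG hΛ hne hnum'
  have h3' : (p * τ) ^ 4 * N₂ ≤ Qt n τ P₀ * N₀ := h3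
  have hpM : (p * τ) ^ 4 * N₂ ≤ Mt n τ P₀ D := h3'.trans hQM'
  have hB := hgr p hpG N₂ h1 hpM
  have hB' : hd L g (bx n ((p * τ) ^ 4 * N₂)) ≤
      p * (2 * (2 * τ) ^ (n + 1) * p ^ (n - k)) ^ 4 * hd L g (bx n N₂) :=
    hB.trans (Nat.mul_le_mul_right _ (Nat.mul_le_mul_left _
      (Nat.pow_le_pow_left (Nat.mul_le_mul_left _ h8) 4)))
  have hGr' : Gr L g ((p * τ) ^ 4 * N₂) Λ := gr_mono g h3' Λ hGr
  have hCp : (2 * (2 * τ) ^ (n + 1)) ^ 4 * (72 * n) ^ n < p := by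
    have := (hG p hpG).2.1
    omega
  obtain ⟨N, hN1, hN2, hN3⟩ := cm3 g hg Λ τ p k N₂ hτ h5 h2 h7 hGr' hB' hCp
  obtain ⟨H, hH1, hH2, hH3⟩ := cm4 g hg Λ N hN3
  have hN : 1 ≤ N := h2.trans hN1
  obtain ⟨e, μ, he, hμ, hli, hm⟩ := minima Λ N hN
  have hk1 : k ≤ rk Λ N := by
    rw [← h6]
    exact rk_mono Λ hN1
  refine ⟨rk Λ N, N, e, μ, H, h4.trans hk1, ?_, hli, fun i j => ((mem_lb Λ _ _).1 (he i)).1 j, hμ,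
    fun i => hH1 _ ?_, hH2, ?_⟩
  · omega
  · rw [mem_lb]
    refine ⟨fun j => (((mem_lb Λ _ _).1 (he i)).1 j).trans ?_, ((mem_lb Λ _ _).1 (he i)).2⟩
    exact_mod_cast (hμ i).2
  · calc Module.finrank L H * ∏ i, μ i ≤ 2 * Module.finrank L H * ∏ i, μ i :=
          Nat.mul_le_mul_right _ (by omega)
      _ ≤ 3 * (lb Λ N).card * ∏ i, μ i := Nat.mul_le_mul_right _ hH3.le
      _ = 3 * ((lb Λ N).card * ∏ i, μ i) := by ring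
      _ ≤ 3 * ((4 * n) ^ (n ^ 2) * N ^ rk Λ N) := Nat.mul_le_mul_left _ hm
      _ = 3 * (4 * n) ^ (n ^ 2) * N ^ rk Λ N := by ring

end Pool.Agent.H11.TSL
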