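import Pool.Agent.H33.PT.Gp
import Pool.Agent.H28.PT4.LgD
import Pool.Agent.H11.TSL.Cor

/-!
# THEOREM TS, LOG VERSION, Gpl: no relations of small degree (log version of `gp`, `H33/PT/Gp.lean`, proof by helper4)

`gp_log`: the statement `HGp` of `Pool/Agent/H28/PT4/FinL.lean` for all classes of fields with `1 ≤ N`. `a₀ = n (38 n^2 + 10)`, `a₁ = 38 n^3 + 1`.
-/

set_option autoImplicit false
set_option linter.unusedSectionVars false

open NumberField

namespace Pool.Agent.H11.TSL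

open Pool.Agent.H11.TS Pool.Agent.H11.TH Pool.Agent.H28.PT4
open Pool.Agent.H33.PT (mo mo_zero deg_chars)

private theorem ch_add {Ω : Type} [Field Ω] {n : ℕ} (a b : Fin n → ℤ) (x : Tor Ω n) :
    ch (a + b) x = ch a x * ch b x := by
  unfold ch
  rw [← Finset.prod_mul_distrib]
  exact Finset.prod_congr rfl fun l _ => zpow_add _ _ _

private theorem ch_zero {Ω : Type} [Field Ω] {n : ℕ} (x : Tor Ω n) : ch 0 x = 1 := by
  unfold ch
  exact Finset.prod_eq_one fun l _ => zpow_zero _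

private theorem ch_smul {Ω : Type} [Field Ω] {n : ℕ} (c : ℤ) (a : Fin n → ℤ) (x : Tor Ω n) :
    ch (c • a) x = ch a x ^ c := by
  unfold ch
  rw [← Finset.prod_zpow]
  exact Finset.prod_congr rfl fun l _ => by
    rw [Pi.smul_apply, smul_eq_mul, mul_comm, zpow_mul]

private theorem ch_sum {Ω : Type} [Field Ω] {n k : ℕ} (e : Fin k → Fin n → ℤ) (c : Fin k → ℤ)
    (s : Finset (Fin k)) (x : Tor Ω n) : ch (∑ i ∈ s, c i • e i) x = ∏ i ∈ s, ch (e i) x ^ c i := by
  classical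
  induction s using Finset.induction_on with
  | empty => rw [Finset.sum_empty, Finset.prod_empty, ch_zero]
  | insert a s ha ih => rw [Finset.sum_insert ha, Finset.prod_insert ha, ch_add, ch_smul, ih]

private theorem ch_single {Ω : Type} [Field Ω] {n : ℕ} (l : Fin n) (x : Tor Ω n) :
    ch (Pi.single l (1 : ℤ)) x = x l := by
  classical
  unfold ch
  rw [Finset.prod_eq_single l]
  · rw [Pi.single_eq_same, zpow_one]
  · intro b _ hb
    rw [Pi.single_eq_of_ne hb, zpow_zero]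
  · intro h
    exact absurd (Finset.mem_univ l) h

/-- the polynomial of a relation between monomials -/
private theorem rel_poly {R Ω : Type} [Field R] [Field Ω] [Algebra R Ω] {n M : ℕ}
    (y : Fin n → Ω) (g : (Fin n → Fin (M + 1)) → R) (a₀ : Fin n → Fin (M + 1)) (h0 : g a₀ ≠ 0)
    (hg : ∑ a, g a • mo y (fun i => (a i : ℕ)) = 0) :
    ∃ F : MvPolynomial (Fin n) R, F ≠ 0 ∧ (∀ i, F.degreeOf i ≤ M) ∧ MvPolynomial.aeval y F = 0 := by
  classical
  have hinj : ∀ a b : Fin n → Fin (M + 1),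
      Finsupp.equivFunOnFinite.symm (fun i => (a i : ℕ)) =
        Finsupp.equivFunOnFinite.symm (fun i => (b i : ℕ)) → a = b := by
    intro a b h
    have h1 := Finsupp.equivFunOnFinite.symm.injective h
    funext i
    exact Fin.ext (congrFun h1 i)
  refine ⟨∑ a, MvPolynomial.monomial (Finsupp.equivFunOnFinite.symm (fun i => (a i : ℕ))) (g a),
    ?_, ?_, ?_⟩
  · rw [MvPolynomial.ne_zero_iff]
    refine ⟨Finsupp.equivFunOnFinite.symm (fun i => (a₀ i : ℕ)), ?_⟩
    rw [MvPolynomial.coeff_sum, Finset.sum_eq_single a₀]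
    · rw [MvPolynomial.coeff_monomial, if_pos rfl]
      exact h0
    · intro b _ hb
      rw [MvPolynomial.coeff_monomial, if_neg]
      intro h
      exact hb (hinj _ _ h)
    · intro h
      exact absurd (Finset.mem_univ _) h
  · intro i
    rw [MvPolynomial.degreeOf_le_iff]
    intro m hm
    rw [MvPolynomial.mem_support_iff, MvPolynomial.coeff_sum] at hm
    obtain ⟨a, _, ha⟩ := Finset.exists_ne_zero_of_sum_ne_zero hm
    rw [MvPolynomial.coeff_monomial] at ha
    have h1 : Finsupp.equivFunOnFinite.symm (fun i => (a i : ℕ)) = m := by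
      by_contra h
      rw [if_neg h] at ha
      exact ha rfl
    rw [← h1]
    exact Nat.lt_succ_iff.1 (a i).2
  · rw [map_sum]
    rw [← hg]
    refine Finset.sum_congr rfl fun a _ => ?_
    rw [MvPolynomial.aeval_monomial, Finsupp.prod_fintype _ _ (fun i => pow_zero _),
      Algebra.smul_def]
    rfl

private theorem comb_ne {n k : ℕ} (e : Fin k → Fin n → ℤ) (h : LinearIndependent ℚ (fun i => rv (e i)))
    (a : Fin k → ℤ) (ha : a ≠ 0) : (∑ i, a i • e i) ≠ 0 := by
  intro h0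
  apply ha
  funext i
  have h1 := Fintype.linearIndependent_iff.1 h (fun i => (a i : ℚ)) (by
    funext l
    rw [Finset.sum_apply, Pi.zero_apply]
    have h2 := congrFun h0 l
    rw [Finset.sum_apply, Pi.zero_apply] at h2
    have h3 : ((∑ i, (a i • e i) l : ℤ) : ℚ) = 0 := by
      rw [h2, Int.cast_zero]
    rw [← h3]
    push_cast
    exact Finset.sum_congr rfl fun i _ => by
      simp [rv]) i
  exact_mod_cast h1

/-- the numerical consequences of the choice of `K₀` -/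
private theorem num_l (K₀ Z A E : ℕ) (l : ℝ) (hl : 1 ≤ l) (hA : 3 * A ≤ K₀) (hA1 : 1 ≤ A) (hE : E ≤ K₀)
    (hZ : (K₀ * l) ^ K₀ ≤ (Z : ℝ)) : K₀ ≤ Z ∧ l ^ E ≤ (Z : ℝ) ∧
    (A * (⌈l⌉₊ + 1)) ^ A ≤ Z := by
  have hK1 : 1 ≤ K₀ := by omega
  have hKR : (1 : ℝ) ≤ K₀ := by exact_mod_cast hK1
  have hlK : l ≤ K₀ * l := le_mul_of_one_le_left (by linarith) hKR
  have hKl : (K₀ : ℝ) ≤ K₀ * l := le_mul_of_one_le_right (by linarith) hl
  have h1 : 1 ≤ K₀ * l := hl.trans hlK
  refine ⟨?_, ?_, ?_⟩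
  · have h2 : (K₀ : ℝ) ≤ Z := hKl.trans ((le_self_pow₀ h1 (by omega)).trans hZ)
    exact_mod_cast h2
  · calc l ^ E ≤ (K₀ * l) ^ E := pow_le_pow_left₀ (by linarith) hlK _
      _ ≤ (K₀ * l) ^ K₀ := pow_le_pow_right₀ h1 hE
      _ ≤ Z := hZ
  · have h2 : ((A * (⌈l⌉₊ + 1) : ℕ) : ℝ) ≤ K₀ * l := by
      have h3 := Nat.ceil_lt_add_one (show (0 : ℝ) ≤ l by linarith)
      have h4 : (3 * A : ℝ) ≤ K₀ := by exact_mod_cast hA
      have h5 : (0 : ℝ) ≤ A := Nat.cast_nonneg _
      push_cast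
      nlinarith
    have h3 : (((A * (⌈l⌉₊ + 1)) ^ A : ℕ) : ℝ) ≤ Z := by
      calc (((A * (⌈l⌉₊ + 1)) ^ A : ℕ) : ℝ) = ((A * (⌈l⌉₊ + 1) : ℕ) : ℝ) ^ A := by push_cast; rfl
        _ ≤ (K₀ * l) ^ A := pow_le_pow_left₀ (Nat.cast_nonneg _) h2 _
        _ ≤ (K₀ * l) ^ K₀ := pow_le_pow_right₀ h1 (by omega)
        _ ≤ Z := hZ
    exact_mod_cast h3

private theorem log3_ge (N D : ℕ) (hN : 1 ≤ N) (hD : 1 ≤ D) : 1 ≤ Real.log (3 * N * D) := by
  have hN1 : (1 : ℝ) ≤ N := by exact_mod_cast hN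
  have hD1 : (1 : ℝ) ≤ D := by exact_mod_cast hD
  have h1 : (3 : ℝ) ≤ 3 * N * D := by nlinarith
  rw [Real.le_log_iff_exp_le (by linarith)]
  have h4 := Real.exp_one_lt_d9
  linarith

theorem gp_log (n : ℕ) (hn : 1 ≤ n) : ∃ a₀ a₁ : ℕ, ∀ (E : ℕ) (c : ℝ), 0 < c → ∃ K₁ : ℕ,
    ∀ (K Ω : Type) [Field K] [NumberField K] [Field Ω] [CharZero Ω] [IsAlgClosed Ω] [Algebra K Ω]
      [IsGalois K Ω] (Λ : Subgroup Ωˣ) (N' : ℕ) (_ : 1 ≤ N') (L : IntermediateField K Ω)
      (_ : ∀ j : ℕ, 1 ≤ j → j < n → LogB L Λ j N' E c), GpL n L Λ N' a₀ a₁ K₁ := by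
  classical
  obtain ⟨C, hC, hts⟩ := thm_tsL n
  obtain ⟨B, hB⟩ : ∃ B : ℕ, B = 38 * n ^ 2 := ⟨_, rfl⟩
  refine ⟨n * (B + 10), n * B + 1, fun E c hc => ?_⟩
  have hfact : 1 ≤ n.factorial := Nat.one_le_iff_ne_zero.2 (Nat.factorial_ne_zero n)
  have hC1 : (1 : ℝ) ≤ C := by exact_mod_cast (by omega : 1 ≤ C)
  refine ⟨3 * C + E + (C * n + n.factorial * C ^ (n + 1) + 1 + (⌈(C : ℝ) / c⌉₊ + 1)), ?_⟩
  intro K Ω _ _ _ _ _ _ _ Λ N' hN' L hlow' γ hind Z hZ' h hh hsmall M₁ hM₁
  have hint : ∀ x : Ω, IsIntegral L x := fun x =>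
    ((Algebra.IsAlgebraic.isAlgebraic (R := K) x).isIntegral).tower_top
  have hpos : ∀ {j : ℕ} (ρ : Fin j → Ωˣ), 1 ≤ degP L ρ := by
    intro j ρ
    have hfd : FiniteDimensional L
        (IntermediateField.adjoin L (Set.range fun i => (ρ i : Ω))) :=
      IntermediateField.finiteDimensional_adjoin fun x _ => hint x
    unfold degP
    exact Module.finrank_pos
  obtain ⟨l, hl⟩ : ∃ l : ℝ, l = Real.log (3 * N' * degP L γ) := ⟨_, rfl⟩
  have hl1 : 1 ≤ l := by
    rw [hl]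
    exact log3_ge N' _ hN' (hpos γ)
  rw [← hl] at hZ'
  obtain ⟨hZK, hlE, hZa⟩ := num_l _ Z C E l hl1 (by omega) (by omega) (by omega) hZ'
  have hZ1 : 1 ≤ Z := by omega
  have hZ3 : 3 ≤ Z := by omega
  have hZCn : C * n ≤ Z := by omega
  have hZn : n ≤ Z := le_trans (Nat.le_mul_of_pos_left n (by omega)) hZCn
  have hZf : n.factorial * C ^ (n + 1) < Z := by omega
  have hZc : (C : ℝ) < c * Z := by
    have h1 : ⌈(C : ℝ) / c⌉₊ + 1 ≤ Z := by omega
    have h2 := Nat.le_ceil ((C : ℝ) / c)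
    rw [div_le_iff₀ hc] at h2
    have h3 : ((⌈(C : ℝ) / c⌉₊ : ℝ) + 1) ≤ Z := by exact_mod_cast h1
    nlinarith
  have hZR : (1 : ℝ) ≤ Z := by exact_mod_cast hZ1
  have hZ0 : (0 : ℝ) < Z := by linarith
  have hh0 : 0 ≤ h := (Pool.Agent.H72.PB.ht_nonneg _).trans (hh ⟨0, hn⟩)
  have hgoal : GPI L (fun i => (γ i : Ω)) M₁ ↔ LinearIndependent L fun a : Fin n → Fin (M₁ + 1) =>
      mo (fun i => (γ i : Ω)) (fun i => (a i : ℕ)) := Iff.rfl
  rw [hgoal, Fintype.linearIndependent_iff]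
  intro g hg
  by_contra hne
  push Not at hne
  obtain ⟨a₀, ha₀⟩ := hne
  rcases Nat.eq_zero_or_pos M₁ with hM0 | hM0
  · subst hM0
    apply ha₀
    have h1 : ∀ a : Fin n → Fin (0 + 1), a = a₀ := fun a => funext fun i => Fin.ext (by
      have h2 := (a i).2
      have h3 := (a₀ i).2
      omega)
    rw [Fintype.sum_eq_single a₀ (fun a ha => absurd (h1 a) ha)] at hg
    have h2 : mo (fun i => (γ i : Ω)) (fun i => ((a₀ i : Fin (0 + 1)) : ℕ)) = 1 := by
      have h3 : (fun i => ((a₀ i : Fin (0 + 1)) : ℕ)) = 0 := by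
        funext i
        have := (a₀ i).2
        simp
      rw [h3, mo_zero]
    rw [h2] at hg
    rcases smul_eq_zero.1 hg with h4 | h4
    · exact h4
    · exact absurd h4 one_ne_zero
  obtain ⟨F, hF0, hFd, hFv⟩ := rel_poly (fun i => (γ i : Ω)) g a₀ ha₀ hg
  have hcrd : (fun i => (γ i : Ω)) = crd γ := rfl
  rw [hcrd] at hFv
  have hidl : idl ({γ} : Set (Tor Ω n)) =
      RingHom.ker (MvPolynomial.aeval (crd γ) : MvPolynomial (Fin n) Ω →ₐ[Ω] Ω) := by
    ext f
    rw [Pool.Agent.H33.TR.mem_idl, RingHom.mem_ker]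
    constructor
    · intro h1
      exact h1 γ rfl
    · rintro h1 x hx
      rw [Set.mem_singleton_iff.1 hx]
      exact h1
  have hprime : (idl ({γ} : Set (Tor Ω n))).IsPrime := by
    rw [hidl]
    exact RingHom.ker_isPrime _
  have hvan : MvPolynomial.map (algebraMap L Ω) F ∈ idl ({γ} : Set (Tor Ω n)) := by
    rw [hidl, RingHom.mem_ker]
    exact (MvPolynomial.aeval_map_algebraMap Ω (crd γ) F).trans hFv
  have hM1D : M₁ ≤ degP L γ := by
    refine le_trans ?_ hM₁
    calc M₁ ≤ M₁ ^ n := Nat.le_self_pow (by omega) _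
      _ = M₁ ^ n * 1 := (mul_one _).symm
      _ ≤ M₁ ^ n * Z ^ (n * B + 1) := Nat.mul_le_mul_left _ (Nat.one_le_pow _ _ hZ1)
  have hMD : M₁ ≤ Z ^ ⌈l⌉₊ := by
    refine hM1D.trans ?_
    have hD1 : (1 : ℝ) ≤ degP L γ := by exact_mod_cast hpos γ
    have hN1 : (1 : ℝ) ≤ N' := by exact_mod_cast hN'
    have h1 : (degP L γ : ℝ) ≤ (Z : ℝ) ^ ⌈l⌉₊ := by
      have h2 : (degP L γ : ℝ) ≤ Real.exp l := by
        rw [hl, Real.exp_log (by nlinarith)]
        nlinarith
      have h3 : Real.exp l ≤ Real.exp ⌈l⌉₊ := Real.exp_le_exp.2 (Nat.le_ceil l)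
      have h4 : Real.exp (⌈l⌉₊ : ℝ) = Real.exp 1 ^ ⌈l⌉₊ := by
        rw [← Real.exp_nat_mul, mul_one]
      have h5 : Real.exp 1 ≤ (Z : ℝ) := by
        have h6 := Real.exp_one_lt_d9
        have h7 : (3 : ℝ) ≤ Z := by exact_mod_cast hZ3
        linarith
      calc (degP L γ : ℝ) ≤ Real.exp 1 ^ ⌈l⌉₊ := by
            rw [← h4]
            exact h2.trans h3
        _ ≤ (Z : ℝ) ^ ⌈l⌉₊ := pow_le_pow_left₀ (Real.exp_pos 1).le h5 _
    exact_mod_cast h1
  have hht : ht γ ≤ (n : ℝ) * h := by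
    unfold ht
    refine (Finset.sum_le_card_nsmul _ _ h (fun l _ => hh l)).trans (le_of_eq ?_)
    rw [Finset.card_univ, Fintype.card_fin, nsmul_eq_mul]
  -- the basic inequality
  obtain ⟨y, hy⟩ : ∃ y : ℝ, y = (M₁ : ℝ) * h * (Z : ℝ) ^ (B + 10) := ⟨_, rfl⟩
  have hy0 : 0 ≤ y := by
    rw [hy]
    positivity
  have hy1 : y ≤ 1 := by
    rw [← pow_le_one_iff_of_nonneg hy0 (show n ≠ 0 by omega)]
    refine le_trans ?_ hsmall
    have h1 : ((M₁ : ℝ) ^ n) ≤ (degP L γ : ℝ) := by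
      have h2 : M₁ ^ n ≤ degP L γ :=
        le_trans (Nat.le_mul_of_pos_right _ (Nat.one_le_pow _ _ hZ1)) hM₁
      exact_mod_cast h2
    calc y ^ n = (Z : ℝ) ^ (n * (B + 10)) * ((M₁ : ℝ) ^ n * h ^ n) := by
          rw [hy, mul_pow, mul_pow, ← pow_mul, mul_comm (B + 10) n]
          ring
      _ ≤ _ := by gcongr
  have hyn : (n : ℝ) * y ≤ Z := by
    have h1 : (n : ℝ) ≤ Z := by exact_mod_cast hZn
    have h2 : (0 : ℝ) ≤ n := Nat.cast_nonneg _
    nlinarith
  rcases hts K Ω L {γ} hprime Z M₁ ⌈l⌉₊ hZa hM0 hMD F hF0 hFd hvan (n * h)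
    (fun x hx => by rw [Set.mem_singleton_iff.1 hx]; exact hht) with h1 | h1
  · -- case 1
    apply absurd h1
    rw [not_lt, ← hB]
    push_cast
    have h2 : (Z : ℝ) ^ (B + 4) * M₁ * (n * h) * (Z : ℝ) ^ 6 = (n : ℝ) * y := by
      rw [hy, show B + 10 = (B + 4) + 6 by ring, pow_add _ (B + 4) 6]
      ring
    have h3 : (Z : ℝ) ^ (B + 4) * M₁ * (n * h) * (Z : ℝ) ^ 6 ≤ 1 * (Z : ℝ) ^ 6 := by
      rw [h2, one_mul]
      exact hyn.trans (le_self_pow₀ hZR (by norm_num))
    exact le_of_mul_le_mul_right h3 (by positivity)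
  · obtain ⟨k, N, ee, μ, γ', hk, hN, hli, heμ, hμ, hγX, hfd, hfin⟩ := h1
    rw [← hB] at hN
    have hγ' : (fun i => ch (ee i) γ) = γ' := by
      funext i
      exact hγX i γ rfl
    have hkn : k ≤ n := by
      have h2 := hli.fintype_card_le_finrank
      rwa [Fintype.card_fin, Module.finrank_fintype_fun_eq_card, Fintype.card_fin] at h2
    rcases Nat.lt_or_ge k n with hlt | hge
    · -- case 2a
      have hind' : IndM Λ γ' := by
        intro b hb
        have h2 : (∏ i, γ' i ^ b i) = ch (∑ i, b i • ee i) γ := by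
          rw [ch_sum, ← hγ']
        rw [h2]
        exact hind _ (comb_ne ee hli b hb)
      have h2 := hlow' k hk hlt γ' hind'
      have hfdγ : FiniteDimensional L
          (IntermediateField.adjoin L (Set.range fun i => (γ i : Ω))) :=
        IntermediateField.finiteDimensional_adjoin fun x _ => hint x
      have hJD : degP L γ' ≤ degP L γ := by
        unfold degP
        have h3 : IntermediateField.adjoin L (Set.range fun i => (γ' i : Ω)) ≤
            IntermediateField.adjoin L (Set.range fun i => (γ i : Ω)) := by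
          rw [IntermediateField.adjoin_le_iff]
          rintro _ ⟨i, rfl⟩
          rw [← hγ']
          show ((ch (ee i) γ : Ωˣ) : Ω) ∈ _
          unfold ch
          rw [Units.coe_prod]
          refine prod_mem fun l _ => ?_
          rw [Units.val_zpow_eq_zpow_val]
          refine zpow_mem ?_ _
          exact IntermediateField.subset_adjoin _ _ ⟨l, rfl⟩
        exact Submodule.finrank_mono (M := Ω) (s := Subalgebra.toSubmodule
          (IntermediateField.adjoin L (Set.range fun i => (γ' i : Ω))).toSubalgebra)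
          (t := Subalgebra.toSubmodule
          (IntermediateField.adjoin L (Set.range fun i => (γ i : Ω))).toSubalgebra) h3
      obtain ⟨J, hJ⟩ : ∃ J : ℕ, J = degP L γ' := ⟨_, rfl⟩
      have hJ0 : 1 ≤ J := by
        rw [hJ]
        exact hpos γ'
      have hJR : (1 : ℝ) ≤ J := by exact_mod_cast hJ0
      have hJl : Real.log (3 * N' * J) ^ E ≤ (Z : ℝ) := by
        refine le_trans (pow_le_pow_left₀ ?_ ?_ E) hlE
        · exact zero_le_one.trans (log3_ge N' J hN' hJ0)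
        · have hN1 : (1 : ℝ) ≤ N' := by exact_mod_cast hN'
          rw [hl]
          refine Real.log_le_log (by nlinarith) ?_
          refine mul_le_mul_of_nonneg_left ?_ (by linarith)
          rw [hJ]
          exact_mod_cast hJD
      have hhe : ∏ i, absLogHeight₁ (γ' i : Ω) ≤ ((∏ i, μ i : ℕ) : ℝ) * (n * h) ^ k := by
        have h3 : ∏ i, absLogHeight₁ (γ' i : Ω) ≤ ∏ i, ((μ i : ℝ) * (n * h)) := by
          refine Finset.prod_le_prod (fun i _ => Pool.Agent.H72.PB.ht_nonneg _) fun i _ => ?_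
          rw [← hγ']
          refine (ht_ch (K := K) (ee i) γ (μ i) ?_).trans
            (mul_le_mul_of_nonneg_left hht (Nat.cast_nonneg _))
          intro l
          have h4 : ((|ee i l| : ℤ) : ℝ) ≤ ((μ i : ℤ) : ℝ) := by exact_mod_cast heμ i l
          rw [Int.cast_abs] at h4
          exact_mod_cast h4
        refine h3.trans (le_of_eq ?_)
        rw [Finset.prod_mul_distrib, Finset.prod_const, Finset.card_univ, Fintype.card_fin]
        push_cast
        rfl
      have hJμ : (J : ℝ) * ((∏ i, μ i : ℕ) : ℝ) ≤ C * (N : ℝ) ^ k := by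
        have h3 : J * ∏ i, μ i ≤ C * N ^ k := by
          rw [hJ]
          exact hfin
        exact_mod_cast h3
      obtain ⟨w, hw⟩ : ∃ w : ℝ, w = (N : ℝ) * (n * h) := ⟨_, rfl⟩
      have hw0 : 0 ≤ w := by
        rw [hw]
        positivity
      have hw9 : w * (Z : ℝ) ^ 9 ≤ 1 := by
        have h3 : (N : ℝ) ≤ (Z : ℝ) ^ B * M₁ := by exact_mod_cast hN
        have h4 : w * (Z : ℝ) ^ 9 * Z ≤ 1 * Z := by
          rw [one_mul]
          refine le_trans ?_ hyn
          calc w * (Z : ℝ) ^ 9 * Z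
              ≤ ((Z : ℝ) ^ B * M₁) * (n * h) * (Z : ℝ) ^ 9 * Z := by
                rw [hw]
                gcongr
            _ = (n : ℝ) * y := by
                rw [hy, pow_add _ B 10]
                ring
        exact le_of_mul_le_mul_right h4 hZ0
      have hw1 : w ≤ 1 := by
        have h3 : (1 : ℝ) ≤ (Z : ℝ) ^ 9 := one_le_pow₀ hZR
        nlinarith
      have hwk : w ^ k ≤ w := by
        calc w ^ k ≤ w ^ 1 := pow_le_pow_of_le_one hw0 hw1 hk
          _ = w := pow_one _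
      have hcw : c ≤ C * w * Z := by
        rw [← hJ] at h2
        calc c ≤ (J : ℝ) * Real.log (3 * N' * J) ^ E * ∏ i, absLogHeight₁ (γ' i : Ω) := h2
          _ ≤ (J * Z) * (((∏ i, μ i : ℕ) : ℝ) * (n * h) ^ k) := by
              refine mul_le_mul (mul_le_mul_of_nonneg_left hJl (by linarith)) hhe
                (Finset.prod_nonneg fun i _ => Pool.Agent.H72.PB.ht_nonneg _) (by positivity)
          _ = ((J : ℝ) * ((∏ i, μ i : ℕ) : ℝ)) * ((n * h) ^ k * Z) := by ring
          _ ≤ (C * (N : ℝ) ^ k) * ((n * h) ^ k * Z) :=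
              mul_le_mul_of_nonneg_right hJμ (by positivity)
          _ = C * w ^ k * Z := by
              rw [hw, mul_pow (N : ℝ)]
              ring
          _ ≤ C * w * Z := by gcongr
      have hfinal : c * Z ≤ C := by
        have h3 : (1 : ℝ) ≤ (Z : ℝ) ^ 7 := one_le_pow₀ hZR
        calc c * Z ≤ (C * w * Z) * Z := mul_le_mul_of_nonneg_right hcw hZ0.le
          _ ≤ (C * w * Z) * Z * (Z : ℝ) ^ 7 := le_mul_of_one_le_right (by positivity) h3
          _ = C * (w * (Z : ℝ) ^ 9) := by ring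
          _ ≤ C * 1 := by gcongr
          _ = C := mul_one _
      linarith
    · -- case 2b
      obtain rfl : k = n := le_antisymm hkn hge
      have h2 := deg_chars L γ ee hli μ heμ
      rw [hγ'] at h2
      have h3 : degP L γ ≤ k.factorial * (C * (Z ^ B * M₁) ^ k) := by
        calc degP L γ ≤ degP L γ' * (k.factorial * ∏ i, μ i) := h2
          _ = k.factorial * (degP L γ' * ∏ i, μ i) := by ring
          _ ≤ k.factorial * (C * N ^ k) := Nat.mul_le_mul_left _ hfin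
          _ ≤ _ := Nat.mul_le_mul_left _ (Nat.mul_le_mul_left _ (Nat.pow_le_pow_left hN _))
      have h4 : (M₁ ^ k * Z ^ (k * B)) * Z ≤
          (M₁ ^ k * Z ^ (k * B)) * (k.factorial * C) := by
        calc (M₁ ^ k * Z ^ (k * B)) * Z = M₁ ^ k * Z ^ (k * B + 1) := by ring
          _ ≤ degP L γ := hM₁
          _ ≤ _ := h3
          _ = (M₁ ^ k * Z ^ (k * B)) * (k.factorial * C) := by
              rw [mul_pow, ← pow_mul, mul_comm B k]
              ring
      have h5 := Nat.le_of_mul_le_mul_left h4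
        (Nat.mul_pos (Nat.pow_pos hM0) (Nat.pow_pos hZ1))
      have h6 : k.factorial * C ≤ k.factorial * C ^ (k + 1) :=
        Nat.mul_le_mul_left _ (Nat.le_self_pow (by omega) _)
      omega

end Pool.Agent.H11.TSL
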