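import Pool.Agent.H11.TSL.Cor
import Pool.Agent.H11.TS.Asm
import Pool.Agent.H28.PT4.LgD

/-!
# THEOREM TS, LOG VERSION, Asl: logarithmic Lehmer bounds for points give logarithmic bounds for all subvarieties

`ts_PL`: as `ts_P` (`H11/TS/FinB.lean`) with `thm_tsL`: `l = log (3 N' D) ≥ 1`, `P₀ = ⌈(3 C l)^C⌉`, `a = ⌈l⌉`, so `D ≤ e^l ≤ P₀^a`, `(C (a+1))^C ≤ P₀ ≤ 2 (3 C l)^C`.
Case 2: `A = [L(γ):L] ≤ C N^k ≤ C P₀^(Bk) D^k`, `log (3 N' A) ≤ n l + C P₀^(Bn) ≤ (n + C) P₀^(Bn+1)`; so everything is a power of `P₀`, hence of `l`.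
`ts_PZL`: `D ≤ 2^(n^2) ω`. `asm_L0`: `root_trickL` and `L ≤ L₀`. `asm_LM`: the same for a sequence of fields (uniform in `m`).
-/

set_option autoImplicit false
set_option linter.unusedSectionVars false

open MvPolynomial NumberField

namespace Pool.Agent.H11.TSL

open Pool.Agent.H33.TR Pool.Agent.H72.PB Pool.Agent.H11.TH Pool.Agent.H11.TS Pool.Agent.H28.PT4

private theorem zpow_sum' {G I : Type} [CommGroup G] (g : G) (s : Finset I) (f : I → ℤ) :
    g ^ (∑ i ∈ s, f i) = ∏ i ∈ s, g ^ f i := by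
  classical
  induction s using Finset.induction_on with
  | empty => rw [Finset.sum_empty, Finset.prod_empty, zpow_zero]
  | insert a s ha ih => rw [Finset.sum_insert ha, Finset.prod_insert ha, zpow_add, ih]

private theorem ch_comb {Ω : Type} [Field Ω] {n k : ℕ} (e : Fin k → Fin n → ℤ) (a : Fin k → ℤ)
    (x : Tor Ω n) : ch (fun l => ∑ i, a i * e i l) x = ∏ i, ch (e i) x ^ a i := by
  unfold ch
  have h : ∀ i, (∏ l, x l ^ e i l) ^ a i = ∏ l, x l ^ (a i * e i l) := by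
    intro i
    rw [← Finset.prod_zpow]
    exact Finset.prod_congr rfl fun l _ => by rw [← zpow_mul, mul_comm]
  simp_rw [h]
  rw [Finset.prod_comm]
  exact Finset.prod_congr rfl fun l _ => zpow_sum' _ _ _

private theorem comb_ne {n k : ℕ} (e : Fin k → Fin n → ℤ) (h : LinearIndependent ℚ (fun i => rv (e i)))
    (a : Fin k → ℤ) (ha : a ≠ 0) : (fun l => ∑ i, a i * e i l) ≠ 0 := by
  intro h0
  apply ha
  funext i
  have h1 := Fintype.linearIndependent_iff.1 h (fun i => (a i : ℚ)) (by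
    funext l
    rw [Finset.sum_apply, Pi.zero_apply]
    have h2 := congrFun h0 l
    have h3 : ((∑ i, a i * e i l : ℤ) : ℚ) = 0 := by
      have h4 : (∑ i, a i * e i l : ℤ) = 0 := h2
      rw [h4, Int.cast_zero]
    rw [← h3]
    push_cast
    exact Finset.sum_congr rfl fun i _ => by rw [Pi.smul_apply, smul_eq_mul]; rfl) i
  exact_mod_cast h1

theorem log3_ge1 (N D : ℝ) (hN : 1 ≤ N) (hD : 1 ≤ D) : 1 ≤ Real.log (3 * N * D) := by
  have h1 : (3 : ℝ) ≤ 3 * N * D := by nlinarith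
  rw [Real.le_log_iff_exp_le (by linarith)]
  have h4 := Real.exp_one_lt_d9
  linarith

/-- the choice of `P₀` -/
private theorem choose_PL (C D N' : ℕ) (hC : 256 ≤ C) (hD : 1 ≤ D) (hN : 1 ≤ N') :
    ∃ P₀ a : ℕ, (C * (a + 1)) ^ C ≤ P₀ ∧ D ≤ P₀ ^ a ∧ Real.log (3 * N' * D) ≤ P₀ ∧
      (P₀ : ℝ) ≤ 2 * (3 * C) ^ C * Real.log (3 * N' * D) ^ C := by
  have hN1 : (1 : ℝ) ≤ N' := by exact_mod_cast hN
  have hD1 : (1 : ℝ) ≤ D := by exact_mod_cast hD
  have hCR : (256 : ℝ) ≤ C := by exact_mod_cast hC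
  obtain ⟨l, hl⟩ : ∃ l : ℝ, l = Real.log (3 * N' * D) := ⟨_, rfl⟩
  have hl1 : 1 ≤ l := by
    rw [hl]
    exact log3_ge1 _ _ hN1 hD1
  rw [← hl]
  obtain ⟨a, ha⟩ : ∃ a : ℕ, a = ⌈l⌉₊ := ⟨_, rfl⟩
  have hal : l ≤ a := by
    rw [ha]
    exact Nat.le_ceil l
  have hal2 : (a : ℝ) + 1 ≤ 3 * l := by
    rw [ha]
    have := Nat.ceil_lt_add_one (show (0 : ℝ) ≤ l by linarith)
    linarith
  have hx1 : 1 ≤ 3 * C * l := by nlinarith
  have hxl : l ≤ 3 * C * l := by nlinarith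
  obtain ⟨P₀, hP₀⟩ : ∃ P₀ : ℕ, P₀ = ⌈(3 * C * l) ^ C⌉₊ := ⟨_, rfl⟩
  have h1 : (3 * C * l) ^ C ≤ (P₀ : ℝ) := by
    rw [hP₀]
    exact Nat.le_ceil _
  have hself : 3 * C * l ≤ (3 * C * l) ^ C := le_self_pow₀ hx1 (by omega)
  refine ⟨P₀, a, ?_, ?_, ?_, ?_⟩
  · have h2 : (((C * (a + 1)) ^ C : ℕ) : ℝ) ≤ P₀ := by
      refine le_trans ?_ h1
      push_cast
      refine pow_le_pow_left₀ (by positivity) ?_ _
      nlinarith
    exact_mod_cast h2
  · have h2 : (D : ℝ) ≤ (P₀ : ℝ) ^ a := by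
      have h3 : (D : ℝ) ≤ Real.exp l := by
        rw [hl, Real.exp_log (by nlinarith)]
        nlinarith
      have h4 : Real.exp l ≤ Real.exp 1 ^ a := by
        rw [← Real.exp_nat_mul, mul_one]
        exact Real.exp_le_exp.2 hal
      have h5 : Real.exp 1 ≤ (P₀ : ℝ) := by
        have h6 := Real.exp_one_lt_d9
        nlinarith
      exact h3.trans (h4.trans (pow_le_pow_left₀ (Real.exp_pos 1).le h5 _))
    exact_mod_cast h2
  · exact hxl.trans (hself.trans h1)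
  · have h2 : (P₀ : ℝ) < (3 * C * l) ^ C + 1 := by
      rw [hP₀]
      exact Nat.ceil_lt_add_one (by positivity)
    have h3 : (1 : ℝ) ≤ (3 * C * l) ^ C := one_le_pow₀ hx1
    calc (P₀ : ℝ) ≤ 2 * (3 * C * l) ^ C := by linarith
      _ = 2 * (3 * C) ^ C * l ^ C := by rw [mul_pow (3 * (C : ℝ)) l]; ring

theorem ts_PL (n E : ℕ) : ∃ (C : ℕ) (κ : ℝ), 0 < κ ∧
    ∀ (K Ω : Type) [Field K] [NumberField K] [Field Ω] [CharZero Ω] [IsAlgClosed Ω] [Algebra K Ω]
      [IsGalois K Ω] (c₁ : ℝ) (_ : 0 ≤ c₁) (Λ : Subgroup Ωˣ) (L : IntermediateField K Ω)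
      (N' : ℕ) (_ : 1 ≤ N') (_ : ∀ k : ℕ, 1 ≤ k → k ≤ n → LogB L Λ k N' E c₁)
      (Γ : Subgroup (Tor Ω n)) (_ : ∀ x : Tor Ω n, (∀ l, x l ∈ Λ) → x ∈ Γ)
      (V : Set (Tor Ω n)) (_ : (idl V).IsPrime) (_ : Transv K Γ V)
      (D : ℕ) (_ : 1 ≤ D) (F : MvPolynomial (Fin n) L) (_ : F ≠ 0) (_ : ∀ i, F.degreeOf i ≤ D)
      (_ : map (algebraMap L Ω) F ∈ idl V)
      (θ : ℝ) (_ : idl {x | x ∈ V ∧ ht x ≤ θ} ≤ idl V),
      κ * min 1 c₁ ≤ Real.log (3 * N' * D) ^ C * D * θ := by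
  classical
  obtain ⟨C, hC, hts⟩ := thm_tsL n
  obtain ⟨B, hB⟩ : ∃ B : ℕ, B = 38 * n ^ 2 := ⟨_, rfl⟩
  have hC1 : (1 : ℝ) ≤ C := by exact_mod_cast (by omega : 1 ≤ C)
  -- the power of `P₀`
  obtain ⟨W, hW⟩ : ∃ W : ℕ, W = (B * n + 1) * E + B + 4 := ⟨_, rfl⟩
  obtain ⟨R, hR⟩ : ∃ R : ℝ, R = (C : ℝ) * (n + C : ℝ) ^ E := ⟨_, rfl⟩
  have hR1 : 1 ≤ R := by
    rw [hR]
    have h1 : (1 : ℝ) ≤ (n + C : ℝ) ^ E := one_le_pow₀ (by
      have : (0 : ℝ) ≤ n := Nat.cast_nonneg _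
      linarith)
    nlinarith
  obtain ⟨T, hT⟩ : ∃ T : ℝ, T = R * (2 * (3 * C) ^ C) ^ W := ⟨_, rfl⟩
  have hT0 : 0 < T := by
    rw [hT]
    positivity
  refine ⟨C * W, T⁻¹, inv_pos.2 hT0, ?_⟩
  intro K Ω _ _ _ _ _ _ _ c₁ hc₁ Λ L N' hN' hP Γ hΓ V hV htr D hD F hF0 hFD hF θ hθ
  have hN1 : (1 : ℝ) ≤ N' := by exact_mod_cast hN'
  have hD1 : (1 : ℝ) ≤ D := by exact_mod_cast hD
  have hD0 : (0 : ℝ) < D := by linarith
  obtain ⟨X, hX⟩ : ∃ X : Set (Tor Ω n), X = {x | x ∈ V ∧ ht x ≤ θ} := ⟨_, rfl⟩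
  rw [← hX] at hθ
  have hXV : X ⊆ V := by
    rw [hX]
    exact fun x hx => hx.1
  have hidl : idl X = idl V := by
    refine le_antisymm hθ fun f hf => ?_
    rw [mem_idl] at hf ⊢
    exact fun x hx => hf x (hXV hx)
  have hXp : (idl X).IsPrime := by
    rw [hidl]
    exact hV
  obtain ⟨x₁, hx₁⟩ := prime_nonempty hXp
  have hxθ : ∀ x ∈ X, ht x ≤ θ := by
    rw [hX]
    exact fun x hx => hx.2
  have hθ0 : 0 ≤ θ := by
    refine le_trans ?_ (hxθ x₁ hx₁)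
    unfold ht
    exact Finset.sum_nonneg fun l _ => ht_nonneg _
  obtain ⟨P₀, a, hP1, hP2, hP3, hP4⟩ := choose_PL C D N' hC hD hN'
  obtain ⟨l, hl⟩ : ∃ l : ℝ, l = Real.log (3 * N' * D) := ⟨_, rfl⟩
  have hl1 : 1 ≤ l := by
    rw [hl]
    exact log3_ge1 _ _ hN1 hD1
  rw [← hl] at hP3 hP4 ⊢
  have hPR : (1 : ℝ) ≤ P₀ := hl1.trans hP3
  have hPW : R * (P₀ : ℝ) ^ W * D * θ ≤ T * (l ^ (C * W) * D * θ) := by
    have h1 : (P₀ : ℝ) ^ W ≤ (2 * (3 * C) ^ C) ^ W * l ^ (C * W) := by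
      calc (P₀ : ℝ) ^ W ≤ (2 * (3 * C) ^ C * l ^ C) ^ W := pow_le_pow_left₀ (by linarith) hP4 _
        _ = (2 * (3 * C) ^ C) ^ W * l ^ (C * W) := by rw [mul_pow, ← pow_mul]
    calc R * (P₀ : ℝ) ^ W * D * θ ≤ R * ((2 * (3 * C) ^ C) ^ W * l ^ (C * W)) * D * θ := by
          gcongr
      _ = T * (l ^ (C * W) * D * θ) := by
          rw [hT]
          ring
  have key : min 1 c₁ ≤ R * (P₀ : ℝ) ^ W * D * θ := by
    rcases hts K Ω L X hXp P₀ D a hP1 hD hP2 F hF0 hFD (by rw [hidl]; exact hF) θ hxθ with h1 | h1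
    · rw [← hB] at h1
      calc min 1 c₁ ≤ 1 := min_le_left _ _
        _ ≤ ((P₀ ^ (B + 4) * D : ℕ) : ℝ) * θ := h1.le
        _ = 1 * (P₀ : ℝ) ^ (B + 4) * D * θ := by
            push_cast
            ring
        _ ≤ R * (P₀ : ℝ) ^ W * D * θ := by
            have h2 : (P₀ : ℝ) ^ (B + 4) ≤ (P₀ : ℝ) ^ W :=
              pow_le_pow_right₀ hPR (by rw [hW]; omega)
            gcongr
    · obtain ⟨k, N, e, μ, γ, hk, hN, hli, heμ, hμ, hγX, hfd, hfin⟩ := h1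
      rw [← hB] at hN
      have hkn : k ≤ n := by
        have h2 := hli.fintype_card_le_finrank
        rwa [Fintype.card_fin, Module.finrank_fintype_fun_eq_card, Fintype.card_fin] at h2
      have hγV : ∀ i, ∀ x ∈ V, ch (e i) x = γ i := by
        intro i
        obtain ⟨_, -, h⟩ := irr_cover hV (le_of_eq hidl) ({()} : Finset Unit) (fun _ => e i)
          (fun _ => γ i) (fun x hx => ⟨(), Finset.mem_singleton_self _, hγX i x hx⟩)
        exact h
      have hind : IndM Λ γ := by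
        intro b hb
        refine not_sat (K := K) Λ Γ hΓ V hV htr (fun l => ∑ i, b i * e i l) (comb_ne e hli b hb) _ ?_
        intro x hx
        rw [ch_comb]
        exact Finset.prod_congr rfl fun i _ => by rw [hγV i x hx]
      have h2 := hP k hk hkn γ hind
      obtain ⟨M, hM⟩ : ∃ M : ℕ, M = ∏ i, μ i := ⟨_, rfl⟩
      have hM1' : 1 ≤ M := by
        rw [hM]
        exact Nat.one_le_iff_ne_zero.2 (Finset.prod_ne_zero_iff.2 fun i _ => by
          have := (hμ i).1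
          omega)
      have hM1 : (1 : ℝ) ≤ M := by exact_mod_cast hM1'
      rw [← hM] at hfin
      have hh : ∏ i, absLogHeight₁ (γ i : Ω) ≤ M * θ ^ k := by
        have h3 : ∏ i, absLogHeight₁ (γ i : Ω) ≤ ∏ i, ((μ i : ℝ) * θ) := by
          refine Finset.prod_le_prod (fun i _ => ht_nonneg _) fun i _ => ?_
          rw [← hγX i x₁ hx₁]
          refine (ht_ch (K := K) (e i) x₁ (μ i) ?_).trans
            (mul_le_mul_of_nonneg_left (hxθ x₁ hx₁) (Nat.cast_nonneg _))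
          intro l
          have h4 : ((|e i l| : ℤ) : ℝ) ≤ ((μ i : ℤ) : ℝ) := by exact_mod_cast heμ i l
          rw [Int.cast_abs] at h4
          exact_mod_cast h4
        refine h3.trans (le_of_eq ?_)
        rw [Finset.prod_mul_distrib, Finset.prod_const, Finset.card_univ, Fintype.card_fin, hM]
        push_cast
        rfl
      obtain ⟨A, hA⟩ : ∃ A : ℕ, A = degP L γ := ⟨_, rfl⟩
      have hApos : 1 ≤ A := by
        rw [hA]
        unfold degP
        exact Module.finrank_pos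
      have hA1 : (1 : ℝ) ≤ A := by exact_mod_cast hApos
      have hAMn : A * M ≤ C * N ^ k := by
        rw [hA]
        exact hfin
      have hAM : (A : ℝ) * M ≤ C * (N : ℝ) ^ k := by exact_mod_cast hAMn
      have hNR : (N : ℝ) ≤ (P₀ : ℝ) ^ B * D := by exact_mod_cast hN
      -- the logarithm
      have hlogA : Real.log (3 * N' * A) ≤ (n + C) * (P₀ : ℝ) ^ (B * n + 1) := by
        have h3 : (A : ℝ) ≤ (C * (P₀ : ℝ) ^ (B * k)) * (D : ℝ) ^ k := by
          calc (A : ℝ) ≤ A * M := le_mul_of_one_le_right (by linarith) hM1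
            _ ≤ C * (N : ℝ) ^ k := hAM
            _ ≤ C * ((P₀ : ℝ) ^ B * D) ^ k := by gcongr
            _ = (C * (P₀ : ℝ) ^ (B * k)) * (D : ℝ) ^ k := by
                rw [mul_pow, ← pow_mul]
                ring
        have hy1 : (0 : ℝ) < C * (P₀ : ℝ) ^ (B * k) := by positivity
        have h4 : 3 * N' * (A : ℝ) ≤ (C * (P₀ : ℝ) ^ (B * k)) * (3 * N' * D) ^ k := by
          have h5 : 3 * (N' : ℝ) ≤ (3 * N') ^ k := le_self_pow₀ (by linarith) (by omega)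
          calc 3 * N' * (A : ℝ) ≤ (3 * N') ^ k * ((C * (P₀ : ℝ) ^ (B * k)) * (D : ℝ) ^ k) := by
                gcongr
            _ = (C * (P₀ : ℝ) ^ (B * k)) * (3 * N' * D) ^ k := by
                rw [mul_pow (3 * (N' : ℝ)) (D : ℝ)]
                ring
        have h5 : Real.log (3 * N' * A) ≤ Real.log (C * (P₀ : ℝ) ^ (B * k)) + k * l := by
          refine (Real.log_le_log (by positivity) h4).trans (le_of_eq ?_)
          rw [Real.log_mul hy1.ne' (by positivity), Real.log_pow, ← hl]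
        have h6 : Real.log (C * (P₀ : ℝ) ^ (B * k)) ≤ C * (P₀ : ℝ) ^ (B * n + 1) := by
          refine (Real.log_le_sub_one_of_pos hy1).trans ?_
          have h7 : (P₀ : ℝ) ^ (B * k) ≤ (P₀ : ℝ) ^ (B * n + 1) :=
            pow_le_pow_right₀ hPR ((Nat.mul_le_mul_left _ hkn).trans (Nat.le_succ _))
          have h8 : (C : ℝ) * (P₀ : ℝ) ^ (B * k) ≤ C * (P₀ : ℝ) ^ (B * n + 1) := by gcongr
          linarith
        have h7 : (k : ℝ) * l ≤ n * (P₀ : ℝ) ^ (B * n + 1) := by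
          have h8 : (k : ℝ) ≤ n := by exact_mod_cast hkn
          have h9 : l ≤ (P₀ : ℝ) ^ (B * n + 1) := hP3.trans (le_self_pow₀ hPR (by omega))
          gcongr
        calc Real.log (3 * N' * A) ≤ _ := h5
          _ ≤ C * (P₀ : ℝ) ^ (B * n + 1) + n * (P₀ : ℝ) ^ (B * n + 1) := add_le_add h6 h7
          _ = _ := by ring
      have hlog0 : 0 ≤ Real.log (3 * N' * A) := zero_le_one.trans (log3_ge1 _ _ hN1 hA1)
      obtain ⟨Y, hY⟩ : ∃ Y : ℝ, Y = C * ((n + C) * (P₀ : ℝ) ^ (B * n + 1)) ^ E := ⟨_, rfl⟩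
      have hY1 : 1 ≤ Y := by
        rw [hY]
        have h3 : (1 : ℝ) ≤ ((n + C) * (P₀ : ℝ) ^ (B * n + 1)) ^ E := by
          refine one_le_pow₀ ?_
          have h4 : (1 : ℝ) ≤ (P₀ : ℝ) ^ (B * n + 1) := one_le_pow₀ hPR
          have h5 : (0 : ℝ) ≤ n := Nat.cast_nonneg _
          nlinarith
        nlinarith
      obtain ⟨y, hy⟩ : ∃ y : ℝ, y = Y * N * θ := ⟨_, rfl⟩
      have hy0 : 0 ≤ y := by
        rw [hy]
        positivity
      have hcy : c₁ ≤ y ^ k := by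
        have hh0 : 0 ≤ ∏ i, absLogHeight₁ (γ i : Ω) := Finset.prod_nonneg fun i _ => ht_nonneg _
        calc c₁ ≤ (A : ℝ) * Real.log (3 * N' * A) ^ E * ∏ i, absLogHeight₁ (γ i : Ω) := by
              rw [hA]
              exact h2
          _ ≤ (A : ℝ) * ((n + C) * (P₀ : ℝ) ^ (B * n + 1)) ^ E * (M * θ ^ k) := by
              gcongr
          _ = (A * M) * ((n + C) * (P₀ : ℝ) ^ (B * n + 1)) ^ E * θ ^ k := by ring
          _ ≤ (C * (N : ℝ) ^ k) * ((n + C) * (P₀ : ℝ) ^ (B * n + 1)) ^ E * θ ^ k := by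
              gcongr
          _ = Y * ((N : ℝ) * θ) ^ k := by
              rw [hY, mul_pow (N : ℝ) θ k]
              ring
          _ ≤ Y ^ k * ((N : ℝ) * θ) ^ k := by
              gcongr
              exact le_self_pow₀ hY1 (by omega)
          _ = y ^ k := by
              rw [hy, ← mul_pow]
              ring
      have hmy : min 1 c₁ ≤ y := by
        rcases le_or_gt y 1 with h3 | h3
        · exact (min_le_right _ _).trans (hcy.trans (pow_le_of_le_one hy0 h3 (by omega)))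
        · exact (min_le_left _ _).trans h3.le
      refine hmy.trans ?_
      calc y ≤ Y * ((P₀ : ℝ) ^ B * D) * θ := by
            rw [hy]
            gcongr
        _ = R * (P₀ : ℝ) ^ ((B * n + 1) * E + B) * D * θ := by
            rw [hY, hR, mul_pow, ← pow_mul, pow_add _ ((B * n + 1) * E) B]
            ring
        _ ≤ R * (P₀ : ℝ) ^ W * D * θ := by
            have h3 : (P₀ : ℝ) ^ ((B * n + 1) * E + B) ≤ (P₀ : ℝ) ^ W :=
              pow_le_pow_right₀ hPR (by rw [hW]; omega)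
            gcongr
  rw [inv_mul_le_iff₀ hT0]
  exact key.trans hPW

end Pool.Agent.H11.TSL
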